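import Mathlib

section

/-!
Graded pieces and Hilbert series of a weighted family of elements of a commutative algebra.
-/

namespace Pool.Agent.MP_ef387b_co

open MvPolynomial

section Basic

variable {τ σ σ' A B : Type*} [CommRing A] [Algebra ℂ A] [CommRing B] [Algebra ℂ B]

/-- The span of the monomials of weight `μ` in the family `f`. -/
noncomputable def gp (w : σ → τ →₀ ℕ) (f : σ → A) (μ : τ →₀ ℕ) : Submodule ℂ A :=
  (weightedHomogeneousSubmodule ℂ w μ).map (aeval f : MvPolynomial σ ℂ →ₐ[ℂ] A).toLinearMap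

/-- The Hilbert series of the family `f`. -/
noncomputable def hs (w : σ → τ →₀ ℕ) (f : σ → A) : MvPowerSeries τ ℤ :=
  fun μ => (Module.finrank ℂ (gp w f μ) : ℤ)

/-- The monomial of exponent `α` in the family `f`. -/
noncomputable def mon (f : σ → A) (α : σ →₀ ℕ) : A := aeval f (monomial α (1 : ℂ))

theorem coeff_hs (w : σ → τ →₀ ℕ) (f : σ → A) (μ : τ →₀ ℕ) :
    MvPowerSeries.coeff μ (hs w f) = (Module.finrank ℂ (gp w f μ) : ℤ) := rfl

theorem mem_gp {w : σ → τ →₀ ℕ} {f : σ → A} {μ : τ →₀ ℕ} {a : A} :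
    a ∈ gp w f μ ↔ ∃ P : MvPolynomial σ ℂ, P.IsWeightedHomogeneous w μ ∧ aeval f P = a := by
  simp [gp, Submodule.mem_map]

theorem mon_zero (f : σ → A) : mon f 0 = 1 := by
  simp [mon]

theorem mon_add (f : σ → A) (α β : σ →₀ ℕ) : mon f (α + β) = mon f α * mon f β := by
  simp only [mon, ← map_mul, monomial_mul, one_mul]

theorem mon_single (f : σ → A) (s : σ) (k : ℕ) : mon f (Finsupp.single s k) = f s ^ k := by
  simp [mon, aeval_monomial]

theorem mon_eq_prod (f : σ → A) (α : σ →₀ ℕ) : mon f α = α.prod fun s k => f s ^ k := by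
  simp [mon, aeval_monomial]

theorem map_mon (φ : A →ₐ[ℂ] B) (f : σ → A) (α : σ →₀ ℕ) :
    φ (mon f α) = mon (fun s => φ (f s)) α := by
  simp [mon_eq_prod, Finsupp.prod, map_prod]

theorem mon_congr {f g : σ → A} {α : σ →₀ ℕ} (h : ∀ s, α s ≠ 0 → f s = g s) :
    mon f α = mon g α := by
  simp only [mon_eq_prod]
  exact Finsupp.prod_congr fun s hs => by rw [h s (Finsupp.mem_support_iff.mp hs)]

theorem mon_mem_gp (w : σ → τ →₀ ℕ) (f : σ → A) {α : σ →₀ ℕ} {μ : τ →₀ ℕ}
    (h : Finsupp.weight w α = μ) : mon f α ∈ gp w f μ :=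
  mem_gp.mpr ⟨_, isWeightedHomogeneous_monomial w α 1 h, rfl⟩

theorem gp_le_iff {w : σ → τ →₀ ℕ} {f : σ → A} {μ : τ →₀ ℕ} {N : Submodule ℂ A} :
    gp w f μ ≤ N ↔ ∀ α, Finsupp.weight w α = μ → mon f α ∈ N := by
  constructor
  · intro h α hα
    exact h (mon_mem_gp w f hα)
  · intro h a ha
    obtain ⟨P, hP, rfl⟩ := mem_gp.mp ha
    rw [P.as_sum, map_sum]
    refine N.sum_mem fun α hα => ?_
    have h1 : monomial α (coeff α P) = coeff α P • monomial α (1 : ℂ) := by
      rw [smul_monomial, smul_eq_mul, mul_one]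
    rw [h1, map_smul]
    exact N.smul_mem _ (h α (hP (mem_support_iff.mp hα)))

theorem one_mem_gp (w : σ → τ →₀ ℕ) (f : σ → A) : (1 : A) ∈ gp w f 0 := by
  rw [← mon_zero f]
  exact mon_mem_gp w f (map_zero _)

theorem gen_mem_gp (w : σ → τ →₀ ℕ) (f : σ → A) (s : σ) : f s ∈ gp w f (w s) := by
  have := mon_mem_gp w f (α := Finsupp.single s 1) (μ := w s) (by simp [Finsupp.weight_single])
  simpa [mon_single] using this

theorem gen_mem_gp' (w : σ → τ →₀ ℕ) (f : σ → A) (s : σ) {a : A} {μ : τ →₀ ℕ} (ha : a = f s)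
    (hμ : μ = w s) : a ∈ gp w f μ := by
  rw [ha, hμ]; exact gen_mem_gp w f s

theorem mul_mem_gp {w : σ → τ →₀ ℕ} {f : σ → A} {μ ν : τ →₀ ℕ} {a b : A} (ha : a ∈ gp w f μ)
    (hb : b ∈ gp w f ν) : a * b ∈ gp w f (μ + ν) := by
  obtain ⟨P, hP, rfl⟩ := mem_gp.mp ha
  obtain ⟨Q, hQ, rfl⟩ := mem_gp.mp hb
  exact mem_gp.mpr ⟨P * Q, hP.mul hQ, map_mul _ _ _⟩

theorem mul_mem_gp' {w : σ → τ →₀ ℕ} {f : σ → A} {μ ν ρ : τ →₀ ℕ} {a b : A} (ha : a ∈ gp w f μ)
    (hb : b ∈ gp w f ν) (h : ρ = μ + ν) : a * b ∈ gp w f ρ := h ▸ mul_mem_gp ha hb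

theorem pow_mem_gp {w : σ → τ →₀ ℕ} {f : σ → A} {μ : τ →₀ ℕ} {a : A} (ha : a ∈ gp w f μ) (k : ℕ) :
    a ^ k ∈ gp w f (k • μ) := by
  induction k with
  | zero => simpa using one_mem_gp w f
  | succ k ih => rw [pow_succ, succ_nsmul]; exact mul_mem_gp ih ha

theorem mon_mem_of_gen {w : σ → τ →₀ ℕ} {w' : σ' → τ →₀ ℕ} {f : σ → A} {g : σ' → A}
    (h : ∀ s, f s ∈ gp w' g (w s)) (α : σ →₀ ℕ) : mon f α ∈ gp w' g (Finsupp.weight w α) := by
  induction α using Finsupp.induction_linear with
  | zero => simpa [mon_zero] using one_mem_gp w' g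
  | add α β ha hb => rw [mon_add, map_add]; exact mul_mem_gp ha hb
  | single s k => rw [mon_single, Finsupp.weight_single]; exact pow_mem_gp (h s) k

theorem gp_le_of_gen {w : σ → τ →₀ ℕ} {w' : σ' → τ →₀ ℕ} {f : σ → A} {g : σ' → A}
    (h : ∀ s, f s ∈ gp w' g (w s)) (μ : τ →₀ ℕ) : gp w f μ ≤ gp w' g μ :=
  gp_le_iff.mpr fun α hα => hα ▸ mon_mem_of_gen h α

theorem gp_eq_of_gen {w : σ → τ →₀ ℕ} {w' : σ' → τ →₀ ℕ} {f : σ → A} {g : σ' → A}
    (h : ∀ s, f s ∈ gp w' g (w s)) (h' : ∀ s, g s ∈ gp w f (w' s)) (μ : τ →₀ ℕ) :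
    gp w f μ = gp w' g μ :=
  le_antisymm (gp_le_of_gen h μ) (gp_le_of_gen h' μ)

theorem hs_eq_of_gen {w : σ → τ →₀ ℕ} {w' : σ' → τ →₀ ℕ} {f : σ → A} {g : σ' → A}
    (h : ∀ s, f s ∈ gp w' g (w s)) (h' : ∀ s, g s ∈ gp w f (w' s)) : hs w f = hs w' g := by
  ext μ
  rw [coeff_hs, coeff_hs, gp_eq_of_gen h h']

theorem gp_map (φ : A →ₐ[ℂ] B) (w : σ → τ →₀ ℕ) (f : σ → A) (μ : τ →₀ ℕ) :
    gp w (fun s => φ (f s)) μ = (gp w f μ).map φ.toLinearMap := by
  have : (aeval (fun s => φ (f s)) : MvPolynomial σ ℂ →ₐ[ℂ] B) = φ.comp (aeval f) := by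
    ext s; simp
  simp only [gp, this, ← Submodule.map_comp]
  rfl

theorem finrank_map_of_injOn {V W : Type*} [AddCommGroup V] [Module ℂ V] [AddCommGroup W]
    [Module ℂ W] (φ : V →ₗ[ℂ] W) (N : Submodule ℂ V) (h : ∀ a ∈ N, φ a = 0 → a = 0) :
    Module.finrank ℂ (N.map φ) = Module.finrank ℂ N := by
  have hinj : Function.Injective (φ.domRestrict N) := by
    rw [injective_iff_map_eq_zero]
    intro a ha
    exact Subtype.ext (h a a.2 ha)
  rw [← LinearMap.finrank_range_of_inj hinj, LinearMap.range_domRestrict]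

theorem hs_map_of_injective (φ : A →ₐ[ℂ] B) (hφ : Function.Injective φ) (w : σ → τ →₀ ℕ)
    (f : σ → A) : hs w (fun s => φ (f s)) = hs w f := by
  ext μ
  rw [coeff_hs, coeff_hs, gp_map, finrank_map_of_injOn]
  intro a _ ha
  exact hφ (by simpa using ha)

theorem finite_weight_eq [Finite σ] {w : σ → τ →₀ ℕ} (hw : ∀ s, w s ≠ 0) (μ : τ →₀ ℕ) :
    {α : σ →₀ ℕ | Finsupp.weight w α = μ}.Finite := by
  refine (Finsupp.finite_of_nat_weight_eq (fun s => (w s).degree)
    (fun s h => hw s ((Finsupp.degree_eq_zero_iff _).mp h)) μ.degree).subset ?_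
  intro α hα
  simp only [Set.mem_ofPred_eq] at hα ⊢
  rw [← hα, Finsupp.weight_apply, Finsupp.weight_apply, Finsupp.sum, Finsupp.sum, map_sum]
  simp

theorem finiteDimensional_gp [Finite σ] {w : σ → τ →₀ ℕ} (hw : ∀ s, w s ≠ 0) (f : σ → A)
    (μ : τ →₀ ℕ) : FiniteDimensional ℂ (gp w f μ) := by
  have hfin := (finite_weight_eq hw μ).image (mon f)
  have : gp w f μ ≤ Submodule.span ℂ (mon f '' {α : σ →₀ ℕ | Finsupp.weight w α = μ}) :=
    gp_le_iff.mpr fun α hα => Submodule.subset_span ⟨α, hα, rfl⟩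
  have := FiniteDimensional.span_of_finite ℂ hfin
  exact Submodule.finiteDimensional_of_le ‹_›

/-- Renaming the torus variables. -/
theorem hs_rename {τ' : Type*} (e : τ ↪ τ') (w : σ → τ →₀ ℕ) (f : σ → A) :
    hs (fun s => (w s).mapDomain e) f = MvPowerSeries.rename e (hs w f) := by
  have hw : ∀ α : σ →₀ ℕ, Finsupp.weight (fun s => (w s).mapDomain e) α =
      (Finsupp.weight w α).mapDomain e := by
    intro α
    induction α using Finsupp.induction_linear with
    | zero => simp
    | add α β ha hb => rw [map_add, map_add, ha, hb, Finsupp.mapDomain_add]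
    | single s k => simp [Finsupp.weight_single, Finsupp.mapDomain_smul]
  ext ν
  by_cases hν : ν ∈ Set.range (Finsupp.mapDomain e : (τ →₀ ℕ) → τ' →₀ ℕ)
  · obtain ⟨μ, rfl⟩ := hν
    rw [← Finsupp.embDomain_eq_mapDomain, MvPowerSeries.coeff_embDomain_rename, coeff_hs, coeff_hs,
      Finsupp.embDomain_eq_mapDomain]
    have : gp (fun s => (w s).mapDomain e) f (μ.mapDomain e) = gp w f μ := by
      apply le_antisymm
      · refine gp_le_iff.mpr fun α hα => mon_mem_gp _ _ ?_
        rw [hw] at hα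
        exact Finsupp.mapDomain_injective e.injective hα
      · refine gp_le_iff.mpr fun α hα => mon_mem_gp _ _ ?_
        rw [hw, hα]
    rw [this]
  · rw [MvPowerSeries.coeff_rename_eq_zero _ _ hν, coeff_hs]
    have : gp (fun s => (w s).mapDomain e) f ν = ⊥ := by
      rw [eq_bot_iff]
      refine gp_le_iff.mpr fun α hα => ?_
      exact absurd ⟨_, (hw α).symm.trans hα⟩ hν
    rw [this]
    simp

end Basic

section Exact

variable {τ σ A B D : Type*} [CommRing A] [Algebra ℂ A] [CommRing B] [Algebra ℂ B]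
  [CommRing D] [Algebra ℂ D]

theorem finrank_eq_map_add_ker {V W : Type*} [AddCommGroup V] [Module ℂ V] [AddCommGroup W]
    [Module ℂ W] (φ : V →ₗ[ℂ] W) (N : Submodule ℂ V) [FiniteDimensional ℂ N] :
    Module.finrank ℂ N =
      Module.finrank ℂ (N.map φ) + Module.finrank ℂ (N ⊓ LinearMap.ker φ : Submodule ℂ V) := by
  have h := (φ.domRestrict N).finrank_range_add_finrank_ker
  rw [LinearMap.range_domRestrict, LinearMap.ker_domRestrict] at h
  rw [← h]
  congr 1
  have : (Submodule.comap N.subtype (LinearMap.ker φ)) =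
      Submodule.comap N.subtype (N ⊓ LinearMap.ker φ) := by
    ext x; simp
  rw [this]
  exact (Submodule.comapSubtypeEquivOfLe inf_le_left).finrank_eq

/-- The basic exact sequence: multiplication by an element `x` of weight `v`. -/
theorem hs_exact [Finite σ] {w : σ → τ →₀ ℕ} (hw : ∀ s, w s ≠ 0) (f : σ → A) (x : A) (v : τ →₀ ℕ)
    (hx : x ∈ gp w f v) (π : A →ₐ[ℂ] B) (ρ : A →ₐ[ℂ] D) (hπ : π x = 0)
    (hker : ∀ ν, ∀ g ∈ gp w f ν, π g = 0 → g = 0 ∨ ∃ μ g', ν = μ + v ∧ g' ∈ gp w f μ ∧ g = x * g')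
    (hρ : ∀ μ, ∀ g ∈ gp w f μ, x * g = 0 ↔ ρ g = 0) :
    hs w f = hs w (fun s => π (f s)) +
      MvPowerSeries.monomial v (1 : ℤ) * hs w (fun s => ρ (f s)) := by
  classical
  ext ν
  have := finiteDimensional_gp hw f ν
  rw [map_add, MvPowerSeries.coeff_monomial_mul, coeff_hs, coeff_hs, gp_map,
    finrank_eq_map_add_ker π.toLinearMap (gp w f ν)]
  push_cast
  congr 1
  split_ifs with hv
  · obtain ⟨μ, rfl⟩ := exists_add_of_le hv
    have hsub : v + μ - v = μ := add_tsub_cancel_left v μ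
    rw [hsub, one_mul, coeff_hs, gp_map]
    have := finiteDimensional_gp hw f μ
    have h1 : gp w f (v + μ) ⊓ LinearMap.ker π.toLinearMap =
        (gp w f μ).map (LinearMap.mulLeft ℂ x) := by
      apply le_antisymm
      · rintro g ⟨hg, hg0⟩
        rcases hker _ g hg hg0 with rfl | ⟨μ', g', h1, h2, rfl⟩
        · exact Submodule.zero_mem _
        · have : μ' = μ := by
            rw [add_comm v μ] at h1
            exact (add_right_cancel h1).symm
          subst this
          exact ⟨g', h2, rfl⟩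
      · rintro _ ⟨g, hg, rfl⟩
        exact ⟨mul_mem_gp hx hg, by simp [hπ]⟩
    have h2 : gp w f μ ⊓ LinearMap.ker (LinearMap.mulLeft ℂ x) =
        gp w f μ ⊓ LinearMap.ker ρ.toLinearMap := by
      ext g
      simp only [Submodule.mem_inf, LinearMap.mem_ker, LinearMap.mulLeft_apply,
        AlgHom.toLinearMap_apply]
      exact and_congr_right fun hg => hρ μ g hg
    have h3 := finrank_eq_map_add_ker (LinearMap.mulLeft ℂ x) (gp w f μ)
    have h4 := finrank_eq_map_add_ker ρ.toLinearMap (gp w f μ)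
    rw [h1]
    rw [h2] at h3
    have : Module.finrank ℂ ((gp w f μ).map (LinearMap.mulLeft ℂ x)) =
      Module.finrank ℂ ((gp w f μ).map ρ.toLinearMap) := by omega
    rw [this]
  · have : gp w f ν ⊓ LinearMap.ker π.toLinearMap = ⊥ := by
      rw [eq_bot_iff]
      rintro g ⟨hg, hg0⟩
      rcases hker _ g hg hg0 with rfl | ⟨μ', g', h1, -, -⟩
      · exact Submodule.zero_mem _
      · exact absurd (h1 ▸ le_add_self) hv
    rw [this]
    simp

/-- Splitting an element according to whether its monomials involve the generator `s`. -/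
theorem gp_split (w : σ → τ →₀ ℕ) (f : σ → A) (s : σ) (ν : τ →₀ ℕ) (N : Submodule ℂ A)
    (hN : ∀ α, Finsupp.weight w α = ν → α s = 0 → mon f α ∈ N) :
    ∀ g ∈ gp w f ν, ∃ g0 ∈ N,
      g = g0 ∨ ∃ μ g', ν = μ + w s ∧ g' ∈ gp w f μ ∧ g = g0 + f s * g' := by
  classical
  by_cases hv : w s ≤ ν
  · obtain ⟨μ, rfl⟩ := exists_add_of_le hv
    have : gp w f (w s + μ) ≤ N ⊔ (gp w f μ).map (LinearMap.mulLeft ℂ (f s)) := by
      refine gp_le_iff.mpr fun α hα => ?_
      by_cases h0 : α s = 0
      · exact Submodule.mem_sup_left (hN α hα h0)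
      · refine Submodule.mem_sup_right ⟨mon f (α - Finsupp.single s 1), mon_mem_gp _ _ ?_, ?_⟩
        · have := Finsupp.weight_sub_single_add (w := w) h0
          rw [hα, add_comm (w s) μ] at this
          exact add_right_cancel this
        · have h1 : α = Finsupp.single s 1 + (α - Finsupp.single s 1) := by
            rw [add_tsub_cancel_of_le]
            rw [Finsupp.single_le_iff]
            omega
          conv_rhs => rw [h1, mon_add, mon_single, pow_one]
          rfl
    intro g hg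
    obtain ⟨g0, hg0, _, ⟨g', hg', rfl⟩, rfl⟩ := Submodule.mem_sup.mp (this hg)
    exact ⟨g0, hg0, Or.inr ⟨μ, g', add_comm _ _, hg', rfl⟩⟩
  · have : gp w f ν ≤ N := by
      refine gp_le_iff.mpr fun α hα => hN α hα ?_
      by_contra h0
      exact hv (hα ▸ Finsupp.le_weight_of_ne_zero' w h0)
    intro g hg
    exact ⟨g, this hg, Or.inl rfl⟩

end Exact

section Cyl

variable {τ σ J A : Type*} [CommRing A] [Algebra ℂ A]

/-- The family `f` together with free variables. -/
noncomputable def cyl (f : σ → A) (J : Type*) : σ ⊕ J → MvPolynomial J A :=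
  Sum.elim (fun s => C (f s)) X

theorem hs_cyl [Finite σ] [Fintype J] {w : σ → τ →₀ ℕ} (hw : ∀ s, w s ≠ 0) {v : J → τ →₀ ℕ}
    (hv : ∀ j, v j ≠ 0) (f : σ → A) :
    hs (Sum.elim w v) (cyl f J) * ∏ j, (1 - MvPowerSeries.monomial (v j) (1 : ℤ)) = hs w f := by
  classical
  have hwv : ∀ s, Sum.elim w v s ≠ 0 := by rintro (s | j); exacts [hw s, hv j]
  let g : Finset J → σ ⊕ J → MvPolynomial J A := fun S =>
    Sum.elim (fun s => C (f s)) fun j => if j ∈ S then X j else 0
  have key : ∀ S : Finset J,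
      hs (Sum.elim w v) (g S) * ∏ j ∈ S, (1 - MvPowerSeries.monomial (v j) (1 : ℤ)) = hs w f := by
    intro S
    induction S using Finset.induction_on with
    | empty =>
      rw [Finset.prod_empty, mul_one]
      let φ : A →ₐ[ℂ] MvPolynomial J A := IsScalarTower.toAlgHom ℂ A (MvPolynomial J A)
      have hφ : Function.Injective φ := C_injective J A
      rw [← hs_map_of_injective φ hφ w f]
      apply hs_eq_of_gen
      · rintro (s | j)
        · exact gen_mem_gp w (fun s => φ (f s)) s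
        · simp [g]
      · intro s
        exact gen_mem_gp (Sum.elim w v) (g ∅) (Sum.inl s)
    | insert j S hj ih =>
      let π : MvPolynomial J A →ₐ[ℂ] MvPolynomial J A :=
        (aeval (fun i => if i = j then 0 else X i) :
          MvPolynomial J A →ₐ[A] MvPolynomial J A).restrictScalars ℂ
      have hπg : ∀ s, π (g (insert j S) s) = g S s := by
        rintro (s | i)
        · simp [π, g]
        · by_cases hi : i = j
          · subst hi; simp [π, g, hj]
          · by_cases hS : i ∈ S <;> simp [π, g, hi, hS]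
      have hx : g (insert j S) (Sum.inr j) = X j := by simp [g]
      have := hs_exact hwv (g (insert j S)) (X j) (v j)
        (gen_mem_gp' _ _ (Sum.inr j) hx.symm rfl) π (AlgHom.id ℂ _) (by simp [π]) ?_ ?_
      · simp only [hπg, AlgHom.id_apply] at this
        rw [Finset.prod_insert hj, ← ih, ← mul_assoc]
        congr 1
        rw [mul_sub, mul_one, mul_comm _ (MvPowerSeries.monomial (v j) (1 : ℤ))]
        exact sub_eq_of_eq_add this
      · intro ν a ha h0
        obtain ⟨g0, hg0, h⟩ := gp_split (Sum.elim w v) (g (insert j S)) (Sum.inr j) ν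
          (LinearMap.eqLocus π.toLinearMap LinearMap.id) (by
            intro α _ hα
            simp only [LinearMap.mem_eqLocus, AlgHom.toLinearMap_apply, LinearMap.id_apply]
            rw [map_mon]
            apply mon_congr
            intro s hs
            rw [hπg]
            rcases s with s | i
            · simp [g]
            · have : i ≠ j := by rintro rfl; exact hs hα
              simp [g, this]) a ha
        simp only [LinearMap.mem_eqLocus, AlgHom.toLinearMap_apply, LinearMap.id_apply] at hg0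
        rcases h with rfl | ⟨μ, g', h1, h2, rfl⟩
        · left; rw [← hg0, h0]
        · right
          refine ⟨μ, g', h1, h2, ?_⟩
          rw [map_add, map_mul, hg0, hx] at h0
          have : π (X j) = 0 := by simp [π]
          rw [this, zero_mul, add_zero] at h0
          rw [h0, zero_add, hx]
      · intro μ a _
        simp only [AlgHom.id_apply]
        constructor
        · intro h
          exact (isRegular_X (n := j)).left (by simpa using h : X j * a = X j * 0)
        · rintro rfl; simp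
  have := key Finset.univ
  simpa [g, cyl] using this

theorem hs_empty [IsEmpty σ] [Nontrivial A] (w : σ → τ →₀ ℕ) (f : σ → A) : hs w f = 1 := by
  classical
  ext μ
  rw [coeff_hs, MvPowerSeries.coeff_one]
  split_ifs with h
  · subst h
    have : gp w f 0 = Submodule.span ℂ {(1 : A)} := by
      apply le_antisymm
      · refine gp_le_iff.mpr fun α _ => ?_
        rw [Subsingleton.elim α 0, mon_zero]
        exact Submodule.subset_span rfl
      · rw [Submodule.span_le, Set.singleton_subset_iff]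
        exact one_mem_gp w f
    rw [this, finrank_span_singleton one_ne_zero]
    rfl
  · have : gp w f μ = ⊥ := by
      rw [eq_bot_iff]
      refine gp_le_iff.mpr fun α hα => ?_
      rw [Subsingleton.elim α 0, map_zero] at hα
      exact absurd hα.symm h
    rw [this]
    simp

/-- The Hilbert series of a polynomial ring. -/
theorem hs_X [Fintype J] {v : J → τ →₀ ℕ} (hv : ∀ j, v j ≠ 0) :
    hs v (X : J → MvPolynomial J ℂ) * ∏ j, (1 - MvPowerSeries.monomial (v j) (1 : ℤ)) = 1 := by
  have h := hs_cyl (σ := Empty) (w := fun s => s.elim) (fun s => s.elim) hv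
    (fun s => s.elim : Empty → ℂ)
  rw [hs_empty (σ := Empty)] at h
  refine Eq.trans ?_ h
  congr 1
  apply hs_eq_of_gen
  · intro j
    exact gen_mem_gp' _ _ (Sum.inr j) rfl rfl
  · rintro (s | j)
    · exact s.elim
    · exact gen_mem_gp v _ j

end Cyl

end Pool.Agent.MP_ef387b_co

end

section

/-!
The Hilbert-Serre theorem for multigraded quotients of polynomial rings, with the order of
vanishing of the numerator bounded below by the codimension.
-/

namespace Pool.Agent.MP_ef387b_co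

open MvPolynomial

variable {τ σ : Type*}

/-- Homogeneous ideals. -/
def Homog (w : σ → τ →₀ ℕ) (I : Ideal (MvPolynomial σ ℂ)) : Prop :=
  ∀ P ∈ I, ∀ ν, weightedHomogeneousComponent w ν P ∈ I

/-- The substitution `a = 1 + β x`. -/
noncomputable def sub1 (τ : Type*) : MvPolynomial τ ℤ →ₐ[ℤ] MvPolynomial τ (Polynomial ℤ) :=
  aeval (fun i => (1 + C Polynomial.X * X i : MvPolynomial τ (Polynomial ℤ)))

theorem dvd_one_sub_sub1 (v : τ →₀ ℕ) :
    (C Polynomial.X : MvPolynomial τ (Polynomial ℤ)) ∣ 1 - sub1 τ (monomial v 1) := by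
  induction v using Finsupp.induction_linear with
  | zero => simp
  | add a b ha hb =>
    have : (monomial (a + b) (1 : ℤ) : MvPolynomial τ ℤ) = monomial a 1 * monomial b 1 := by
      rw [monomial_mul, one_mul]
    rw [this, map_mul]
    have h2 : 1 - sub1 τ (monomial a 1) * sub1 τ (monomial b 1) =
      (1 - sub1 τ (monomial a 1)) + sub1 τ (monomial a 1) * (1 - sub1 τ (monomial b 1)) := by ring
    rw [h2]
    exact dvd_add ha (hb.mul_left _)
  | single i k =>
    rw [← X_pow_eq_monomial, map_pow]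
    have h1 : sub1 τ (X i) = 1 + C Polynomial.X * X i := by simp [sub1]
    rw [h1]
    have := sub_dvd_pow_sub_pow (1 : MvPolynomial τ (Polynomial ℤ)) (1 + C Polynomial.X * X i) k
    rw [one_pow] at this
    refine Dvd.dvd.trans ⟨-X i, by ring⟩ this

theorem comp_X_mul (w : σ → τ →₀ ℕ) (s : σ) (μ : τ →₀ ℕ) (b : MvPolynomial σ ℂ) :
    weightedHomogeneousComponent w (μ + w s) (X s * b) =
      X s * weightedHomogeneousComponent w μ b := by
  classical
  ext m
  rw [coeff_weightedHomogeneousComponent, coeff_X_mul', coeff_X_mul',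
    coeff_weightedHomogeneousComponent]
  by_cases hm : s ∈ m.support
  · have := Finsupp.weight_sub_single_add (w := w) (Finsupp.mem_support_iff.mp hm)
    simp only [if_pos hm, ← this, add_left_inj]
  · simp [hm]

theorem comp_X_mul_eq_zero (w : σ → τ →₀ ℕ) (s : σ) {ν : τ →₀ ℕ} (h : ¬ w s ≤ ν)
    (b : MvPolynomial σ ℂ) : weightedHomogeneousComponent w ν (X s * b) = 0 := by
  classical
  ext m
  rw [coeff_weightedHomogeneousComponent, coeff_X_mul']
  split_ifs with h1 h2
  · exact absurd (h1 ▸ Finsupp.le_weight_of_ne_zero' w (Finsupp.mem_support_iff.mp h2)) h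
  · simp
  · simp

theorem wb_cancel {a : WithBot ℕ∞} {n : ℕ} (h : a + 1 ≤ ((n + 1 : ℕ) : WithBot ℕ∞)) :
    a ≤ (n : WithBot ℕ∞) := by
  rw [Nat.cast_add, Nat.cast_one] at h
  exact ENat.WithBot.add_le_add_one_right_iff.mp h

theorem coe_sub' (P Q : MvPolynomial τ ℤ) :
    ((P - Q : MvPolynomial τ ℤ) : MvPowerSeries τ ℤ) = P - Q :=
  map_sub (coeToMvPowerSeries.ringHom : MvPolynomial τ ℤ →+* MvPowerSeries τ ℤ) P Q

theorem coe_prod' {ι : Type*} (S : Finset ι) (P : ι → MvPolynomial τ ℤ) :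
    ((∏ i ∈ S, P i : MvPolynomial τ ℤ) : MvPowerSeries τ ℤ) =
      ∏ i ∈ S, (P i : MvPowerSeries τ ℤ) :=
  map_prod (coeToMvPowerSeries.ringHom : MvPolynomial τ ℤ →+* MvPowerSeries τ ℤ) P S

theorem coe_one_sub_monomial (v : τ →₀ ℕ) :
    ((1 - monomial v 1 : MvPolynomial τ ℤ) : MvPowerSeries τ ℤ) =
      1 - MvPowerSeries.monomial v (1 : ℤ) := by
  rw [coe_sub', coe_one, coe_monomial]

theorem serre_aux [Finite σ] {w : σ → τ →₀ ℕ} (hw : ∀ s, w s ≠ 0) (S : Finset σ) :
    ∀ I : Ideal (MvPolynomial σ ℂ), Homog w I → (∀ s ∉ S, X s ∈ I) →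
      ∃ K : MvPolynomial τ ℤ,
        (K : MvPowerSeries τ ℤ) = hs w (fun s => Ideal.Quotient.mkₐ ℂ I (X s)) *
          ∏ s ∈ S, (1 - MvPowerSeries.monomial (w s) (1 : ℤ)) ∧
        ∀ c : ℕ, (c : WithBot ℕ∞) + ringKrullDim (MvPolynomial σ ℂ ⧸ I) ≤ S.card →
          (C (Polynomial.X ^ c) : MvPolynomial τ (Polynomial ℤ)) ∣ sub1 τ K := by
  classical
  induction S using Finset.induction_on with
  | empty =>
    intro I _ hI
    by_cases htop : I = ⊤
    · refine ⟨0, ?_, fun c _ => by simp⟩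
      subst htop
      ext μ
      rw [Finset.prod_empty, mul_one, coeff_hs]
      have : gp w (fun s => Ideal.Quotient.mkₐ ℂ (⊤ : Ideal (MvPolynomial σ ℂ)) (X s)) μ = ⊥ :=
        Subsingleton.elim _ _
      rw [this]
      simp
    · have := Ideal.Quotient.nontrivial_iff.mpr htop
      refine ⟨1, ?_, fun c hc => ?_⟩
      · rw [Finset.prod_empty, mul_one, coe_one,
          ← hs_empty (σ := Empty) (fun s => s.elim) (fun s => s.elim : _ → MvPolynomial σ ℂ ⧸ I)]
        apply hs_eq_of_gen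
        · intro s; exact s.elim
        · intro s
          have : Ideal.Quotient.mkₐ ℂ I (X s) = 0 :=
            Ideal.Quotient.eq_zero_iff_mem.mpr (hI s (Finset.notMem_empty s))
          rw [this]
          exact Submodule.zero_mem _
      · have h0 := ringKrullDim_nonneg_of_nontrivial (R := MvPolynomial σ ℂ ⧸ I)
        have h1 : (c : WithBot ℕ∞) + 0 ≤ ((∅ : Finset σ).card : WithBot ℕ∞) :=
          le_trans (by gcongr) hc
        have h2 : c ≤ 0 := by
          rw [add_zero, Finset.card_empty] at h1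
          exact_mod_cast h1
        have : c = 0 := by omega
        subst this
        simp
  | insert s S hs ih =>
    intro I
    induction I using IsNoetherian.induction with
    | _ I ih2 =>
    intro hI hS
    let I1 : Ideal (MvPolynomial σ ℂ) := I ⊔ Ideal.span {X s}
    let I2 : Ideal (MvPolynomial σ ℂ) :=
      Submodule.comap (LinearMap.mulLeft (MvPolynomial σ ℂ) (X s)) I
    have hI2 : ∀ P, P ∈ I2 ↔ X s * P ∈ I := fun P => Iff.rfl
    have hI1 : ∀ P, P ∈ I1 ↔ ∃ a ∈ I, ∃ b, P = a + X s * b := by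
      intro P
      simp only [I1, Submodule.mem_sup, Ideal.mem_span_singleton']
      constructor
      · rintro ⟨a, ha, _, ⟨b, rfl⟩, rfl⟩
        exact ⟨a, ha, b, by ring⟩
      · rintro ⟨a, ha, b, rfl⟩
        exact ⟨a, ha, _, ⟨b, rfl⟩, by ring⟩
    have hle1 : I ≤ I1 := le_sup_left
    have hle2 : I ≤ I2 := fun P hP => (hI2 P).mpr (Ideal.mul_mem_left I _ hP)
    have hx1 : X s ∈ I1 := (hI1 _).mpr ⟨0, I.zero_mem, 1, by ring⟩
    have hom1 : Homog w I1 := by
      intro P hP ν
      obtain ⟨a, ha, b, rfl⟩ := (hI1 P).mp hP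
      rw [map_add]
      refine I1.add_mem (hle1 (hI a ha ν)) ?_
      by_cases hv : w s ≤ ν
      · obtain ⟨μ, rfl⟩ := exists_add_of_le hv
        rw [add_comm (w s) μ, comp_X_mul]
        exact I1.mul_mem_right _ hx1
      · rw [comp_X_mul_eq_zero w s hv]
        exact I1.zero_mem
    have hom2 : Homog w I2 := by
      intro P hP ν
      rw [hI2, ← comp_X_mul]
      exact hI _ ((hI2 P).mp hP) _
    have hex := hs_exact hw (fun t => Ideal.Quotient.mkₐ ℂ I (X t)) (Ideal.Quotient.mkₐ ℂ I (X s))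
      (w s) (gen_mem_gp w _ s) (Ideal.Quotient.factorₐ ℂ hle1) (Ideal.Quotient.factorₐ ℂ hle2)
      (Ideal.Quotient.eq_zero_iff_mem.mpr hx1) ?_ ?_
    rotate_left
    · intro ν g hg h0
      obtain ⟨P, hP, rfl⟩ := mem_gp.mp hg
      have hae : ∀ Q : MvPolynomial σ ℂ,
          aeval (fun t => Ideal.Quotient.mkₐ ℂ I (X t)) Q = Ideal.Quotient.mkₐ ℂ I Q := by
        intro Q
        have : aeval (fun t => Ideal.Quotient.mkₐ ℂ I (X t)) = Ideal.Quotient.mkₐ ℂ I := by
          ext t; simp
        rw [this]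
      rw [hae] at h0 ⊢
      have hP1 : P ∈ I1 := Ideal.Quotient.eq_zero_iff_mem.mp h0
      obtain ⟨a, ha, b, hab⟩ := (hI1 P).mp hP1
      have hc : P = weightedHomogeneousComponent w ν a +
          weightedHomogeneousComponent w ν (X s * b) := by
        rw [← map_add, ← hab, hP.weightedHomogeneousComponent_same]
      have ha0 : Ideal.Quotient.mkₐ ℂ I (weightedHomogeneousComponent w ν a) = 0 :=
        Ideal.Quotient.eq_zero_iff_mem.mpr (hI a ha ν)
      by_cases hv : w s ≤ ν
      · obtain ⟨μ, rfl⟩ := exists_add_of_le hv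
        right
        refine ⟨μ, Ideal.Quotient.mkₐ ℂ I (weightedHomogeneousComponent w μ b), add_comm _ _,
          mem_gp.mpr ⟨_, weightedHomogeneousComponent_isWeightedHomogeneous μ b, hae _⟩, ?_⟩
        rw [hc, map_add, ha0, zero_add, add_comm (w s) μ, comp_X_mul, map_mul]
      · left
        rw [hc, map_add, ha0, zero_add, comp_X_mul_eq_zero w s hv, map_zero]
    · intro μ g _
      obtain ⟨P, rfl⟩ := Ideal.Quotient.mk_surjective g
      have h1 : Ideal.Quotient.mkₐ ℂ I (X s) * Ideal.Quotient.mk I P =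
        Ideal.Quotient.mk I (X s * P) := rfl
      have h2 : Ideal.Quotient.factorₐ ℂ hle2 (Ideal.Quotient.mk I P) =
        Ideal.Quotient.mk I2 P := rfl
      rw [h1, h2, Ideal.Quotient.eq_zero_iff_mem, Ideal.Quotient.eq_zero_iff_mem, hI2]
    have he1 : (fun t => Ideal.Quotient.factorₐ ℂ hle1 (Ideal.Quotient.mkₐ ℂ I (X t))) =
      fun t => Ideal.Quotient.mkₐ ℂ I1 (X t) := rfl
    have he2 : (fun t => Ideal.Quotient.factorₐ ℂ hle2 (Ideal.Quotient.mkₐ ℂ I (X t))) =
      fun t => Ideal.Quotient.mkₐ ℂ I2 (X t) := rfl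
    rw [he1, he2] at hex
    obtain ⟨K1, hK1, hd1⟩ := ih I1 hom1 (by
      intro t ht
      by_cases hts : t = s
      · rw [hts]; exact hx1
      · exact hle1 (hS t (by simp [hts, ht])))
    have hdim1 : ringKrullDim (MvPolynomial σ ℂ ⧸ I1) ≤ ringKrullDim (MvPolynomial σ ℂ ⧸ I) :=
      ringKrullDim_le_of_surjective (Ideal.Quotient.factor hle1)
        (Ideal.Quotient.factor_surjective hle1)
    have hdim2 : ringKrullDim (MvPolynomial σ ℂ ⧸ I2) ≤ ringKrullDim (MvPolynomial σ ℂ ⧸ I) :=
      ringKrullDim_le_of_surjective (Ideal.Quotient.factor hle2)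
        (Ideal.Quotient.factor_surjective hle2)
    rw [Finset.card_insert_of_notMem hs, Finset.prod_insert hs]
    by_cases heq : I2 = I
    · refine ⟨K1, ?_, fun c hc => hd1 c ?_⟩
      · rw [heq] at hex
        rw [hK1, ← mul_assoc]
        congr 1
        rw [mul_sub, mul_one, mul_comm _ (MvPowerSeries.monomial (w s) (1 : ℤ))]
        exact (sub_eq_of_eq_add hex).symm
      · have hnz : Ideal.Quotient.mk I (X s) ∈ nonZeroDivisors (MvPolynomial σ ℂ ⧸ I) := by
          rw [mem_nonZeroDivisors_iff_right]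
          intro g hg
          obtain ⟨P, rfl⟩ := Ideal.Quotient.mk_surjective g
          rw [← map_mul, Ideal.Quotient.eq_zero_iff_mem, mul_comm, ← hI2, heq] at hg
          exact Ideal.Quotient.eq_zero_iff_mem.mpr hg
        have := ringKrullDim_succ_le_of_surjective (Ideal.Quotient.factor hle1)
          (Ideal.Quotient.factor_surjective hle1) hnz (Ideal.Quotient.eq_zero_iff_mem.mpr hx1)
        apply wb_cancel
        rw [add_assoc]
        exact le_trans (by gcongr) hc
    · have hlt : I < I2 := lt_of_le_of_ne hle2 (Ne.symm heq)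
      obtain ⟨K2, hK2, hd2⟩ := ih2 I2 hlt hom2 (fun t ht => hle2 (hS t ht))
      rw [Finset.prod_insert hs] at hK2
      rw [Finset.card_insert_of_notMem hs] at hd2
      refine ⟨(1 - monomial (w s) 1) * K1 + monomial (w s) 1 * K2, ?_, fun c hc => ?_⟩
      · rw [hex]
        rw [coe_add, coe_mul, coe_mul, hK1, hK2, coe_one_sub_monomial, coe_monomial]
        ring
      · rw [map_add, map_mul, map_mul]
        refine dvd_add ?_ ((hd2 c (le_trans (by gcongr) hc)).mul_left _)
        rcases c with _ | c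
        · simp
        · rw [pow_succ', map_mul, map_sub, map_one]
          refine mul_dvd_mul (dvd_one_sub_sub1 _) (hd1 c ?_)
          apply wb_cancel
          refine le_trans ?_ hc
          push_cast
          rw [add_right_comm]
          gcongr

/-- Hilbert-Serre. -/
theorem serre [Fintype σ] {w : σ → τ →₀ ℕ} (hw : ∀ s, w s ≠ 0) (I : Ideal (MvPolynomial σ ℂ))
    (hI : Homog w I) :
    ∃ K : MvPolynomial τ ℤ,
      (K : MvPowerSeries τ ℤ) = hs w (fun s => Ideal.Quotient.mkₐ ℂ I (X s)) *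
        ∏ s, (1 - MvPowerSeries.monomial (w s) (1 : ℤ)) ∧
      ∀ c : ℕ, (c : WithBot ℕ∞) + ringKrullDim (MvPolynomial σ ℂ ⧸ I) ≤ Fintype.card σ →
        (C (Polynomial.X ^ c) : MvPolynomial τ (Polynomial ℤ)) ∣ sub1 τ K :=
  serre_aux hw Finset.univ I hI fun s hs => absurd (Finset.mem_univ s) hs

end Pool.Agent.MP_ef387b_co

end
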