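import Pool.Agent.Mg.Fef387b.Gf03b00

section

/-!
The fibre of `MX (1^2 × 351624)` over the identity in the lower right `6 × 6` block: an affine
space times two planes meeting in a point.
-/

namespace Pool.Agent.MP_ef387b_co

open MvPolynomial

section TwoPlanes

variable {τ σ A : Type*} [CommRing A] [Algebra ℂ A]

theorem coeff_zero_hs [Nontrivial A] {w : σ → τ →₀ ℕ} (hw : ∀ s, w s ≠ 0) (f : σ → A) :
    MvPowerSeries.coeff 0 (hs w f) = 1 := by
  have : gp w f 0 = Submodule.span ℂ {(1 : A)} := by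
    apply le_antisymm
    · refine gp_le_iff.mpr fun α hα => ?_
      have : α = 0 := by
        ext s
        by_contra h
        have := Finsupp.le_weight_of_ne_zero' w h
        rw [hα] at this
        exact hw s (nonpos_iff_eq_zero.mp this)
      rw [this, mon_zero]
      exact Submodule.subset_span rfl
    · rw [Submodule.span_le, Set.singleton_subset_iff]
      exact one_mem_gp w f
  rw [coeff_hs, this, finrank_span_singleton one_ne_zero]
  rfl

theorem mon_eq_zero (f : σ → A) {α : σ →₀ ℕ} {s : σ} (hs : α s ≠ 0) (h : f s = 0) :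
    mon f α = 0 := by
  rw [mon_eq_prod, Finsupp.prod]
  exact Finset.prod_eq_zero (Finsupp.mem_support_iff.mpr hs) (by rw [h, zero_pow hs])

theorem mon_mapDomain {σ' : Type*} (f : σ' → A) (e : σ → σ') (α : σ →₀ ℕ) :
    mon f (α.mapDomain e) = mon (fun s => f (e s)) α := by
  induction α using Finsupp.induction_linear with
  | zero => simp [mon_zero]
  | add a b ha hb => rw [Finsupp.mapDomain_add, mon_add, mon_add, ha, hb]
  | single s k => rw [Finsupp.mapDomain_single, mon_single, mon_single]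

theorem weight_mapDomain {σ' : Type*} (w : σ' → τ →₀ ℕ) (e : σ → σ') (α : σ →₀ ℕ) :
    Finsupp.weight w (α.mapDomain e) = Finsupp.weight (fun s => w (e s)) α := by
  induction α using Finsupp.induction_linear with
  | zero => simp
  | add a b ha hb => rw [Finsupp.mapDomain_add, map_add, map_add, ha, hb]
  | single s k => rw [Finsupp.mapDomain_single, Finsupp.weight_single, Finsupp.weight_single]

/-- Two copies glued at the origin. -/
theorem hs_glue [Finite σ] [Nontrivial A] {w : σ → τ →₀ ℕ} (hw : ∀ s, w s ≠ 0) (f : σ → A) :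
    hs (Sum.elim w w) (Sum.elim (fun s => ((f s, 0) : A × A)) (fun s => ((0, f s) : A × A))) =
      2 * hs w f - 1 := by
  classical
  set F : σ ⊕ σ → A × A :=
    Sum.elim (fun s => ((f s, 0) : A × A)) (fun s => ((0, f s) : A × A)) with hF
  have hww : ∀ s, Sum.elim w w s ≠ 0 := by rintro (s | s) <;> exact hw s
  ext μ
  rw [two_mul, map_sub, map_add, MvPowerSeries.coeff_one]
  split_ifs with hμ
  · subst hμ
    rw [coeff_zero_hs hww, coeff_zero_hs hw]
    rfl
  have := finiteDimensional_gp hw f μ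
  have h1 : gp (Sum.elim w w) F μ =
      (gp w f μ).map (LinearMap.inl ℂ A A) ⊔ (gp w f μ).map (LinearMap.inr ℂ A A) := by
    apply le_antisymm
    · intro g hg
      have e1 : g.1 ∈ gp w f μ := by
        have h2 : (gp (Sum.elim w w) F μ).map (AlgHom.fst ℂ A A).toLinearMap ≤ gp w f μ := by
          rw [← gp_map]
          apply gp_le_of_gen
          rintro (s | s)
          · exact gen_mem_gp w f s
          · exact Submodule.zero_mem _
        exact h2 ⟨g, hg, rfl⟩
      have e2 : g.2 ∈ gp w f μ := by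
        have h2 : (gp (Sum.elim w w) F μ).map (AlgHom.snd ℂ A A).toLinearMap ≤ gp w f μ := by
          rw [← gp_map]
          apply gp_le_of_gen
          rintro (s | s)
          · exact Submodule.zero_mem _
          · exact gen_mem_gp w f s
        exact h2 ⟨g, hg, rfl⟩
      exact Submodule.mem_sup.mpr ⟨_, ⟨g.1, e1, rfl⟩, _, ⟨g.2, e2, rfl⟩, by simp⟩
    · have hne : ∀ α : σ →₀ ℕ, Finsupp.weight w α = μ → ∃ s, α s ≠ 0 := by
        intro α hα
        by_contra h
        push Not at h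
        have : α = 0 := Finsupp.ext h
        rw [this, map_zero] at hα
        exact hμ hα.symm
      refine sup_le ?_ ?_ <;> rw [Submodule.map_le_iff_le_comap] <;>
        refine gp_le_iff.mpr fun α hα => ?_
      · obtain ⟨s, hs⟩ := hne α hα
        have h2 := mon_mem_gp (Sum.elim w w) F (α := α.mapDomain Sum.inl) (μ := μ)
          (by rw [weight_mapDomain]; exact hα)
        rw [mon_mapDomain] at h2
        rw [Submodule.mem_comap]
        convert h2 using 1
        refine Prod.ext ?_ ?_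
        · exact (map_mon (AlgHom.fst ℂ A A) (fun s => F (Sum.inl s)) α).symm
        · exact ((map_mon (AlgHom.snd ℂ A A) _ α).trans (mon_eq_zero _ hs rfl)).symm
      · obtain ⟨s, hs⟩ := hne α hα
        have h2 := mon_mem_gp (Sum.elim w w) F (α := α.mapDomain Sum.inr) (μ := μ)
          (by rw [weight_mapDomain]; exact hα)
        rw [mon_mapDomain] at h2
        rw [Submodule.mem_comap]
        convert h2 using 1
        refine Prod.ext ?_ ?_
        · exact ((map_mon (AlgHom.fst ℂ A A) _ α).trans (mon_eq_zero _ hs rfl)).symm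
        · exact (map_mon (AlgHom.snd ℂ A A) (fun s => F (Sum.inr s)) α).symm
  have h2 : (gp w f μ).map (LinearMap.inl ℂ A A) ⊓ (gp w f μ).map (LinearMap.inr ℂ A A) = ⊥ := by
    rw [eq_bot_iff]
    rintro _ ⟨⟨a, -, rfl⟩, b, -, h⟩
    have : a = 0 := (congrArg Prod.fst h).symm
    simp [this]
  have h3 := Submodule.finrank_sup_add_finrank_inf_eq ((gp w f μ).map (LinearMap.inl ℂ A A))
    ((gp w f μ).map (LinearMap.inr ℂ A A))
  rw [h2, finrank_bot, add_zero, finrank_map_of_injOn _ _ (fun a _ h => congrArg Prod.fst h),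
    finrank_map_of_injOn _ _ (fun a _ h => congrArg Prod.snd h)] at h3
  rw [coeff_hs, coeff_hs, h1, h3]
  simp

/-- The union of two linear spaces meeting in the origin. -/
def Two (σ : Type*) : Type _ := {x : (σ → ℂ) × (σ → ℂ) // x.1 = 0 ∨ x.2 = 0}

/-- The coordinates on `Two σ`. -/
def twoF (σ : Type*) : σ ⊕ σ → Two σ → ℂ :=
  Sum.elim (fun s x => x.1.1 s) (fun s x => x.1.2 s)

theorem hs_two [Fintype σ] {w : σ → τ →₀ ℕ} (hw : ∀ s, w s ≠ 0) :
    hs (Sum.elim w w) (twoF σ) * ∏ s, (1 - MvPowerSeries.monomial (w s) (1 : ℤ)) =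
      2 - ∏ s, (1 - MvPowerSeries.monomial (w s) (1 : ℤ)) := by
  let θ : (Two σ → ℂ) →ₐ[ℂ] ((σ → ℂ) → ℂ) × ((σ → ℂ) → ℂ) :=
    (pull fun x => (⟨(x, 0), Or.inr rfl⟩ : Two σ)).prod
      (pull fun x => (⟨(0, x), Or.inl rfl⟩ : Two σ))
  have hθ : Function.Injective θ := by
    intro g g' h
    funext x
    obtain ⟨⟨x1, x2⟩, hx | hx⟩ := x
    · obtain rfl : x1 = 0 := hx
      exact congrFun (congrArg Prod.snd h) x2
    · obtain rfl : x2 = 0 := hx
      exact congrFun (congrArg Prod.fst h) x1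
  have h1 : (fun s => θ (twoF σ s)) = 
      Sum.elim (fun s => (((fun x => x s), 0) : ((σ → ℂ) → ℂ) × ((σ → ℂ) → ℂ)))
      (fun s => ((0, (fun x => x s)) : ((σ → ℂ) → ℂ) × ((σ → ℂ) → ℂ))) := by
    funext s
    rcases s with s | s <;> rfl
  have h2 : hs w (fun s (x : σ → ℂ) => x s) = hs w (X : σ → MvPolynomial σ ℂ) := by
    rw [← hs_map_of_injective (aeval fun s (x : σ → ℂ) => x s) _ w X]
    · simp
    · rw [injective_iff_map_eq_zero]
      intro P hP
      apply MvPolynomial.funext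
      intro x
      have := congrFun hP x
      rw [aeval_pi_apply] at this
      simpa [aeval_eq_eval] using this
  rw [← hs_map_of_injective θ hθ, h1, hs_glue hw, h2, sub_mul, mul_assoc, hs_X hw]
  ring

end TwoPlanes

section Eight

/-- The one-line notation of `1^2 × 351624`. -/
def v8 : Fin 8 → Fin 8 := ![0, 1, 4, 6, 2, 7, 3, 5]

variable {z : Equiv.Perm (Fin 8)}

theorem schur8 (hz : ∀ a, z a = v8 a) {A : Matrix (Fin 8) (Fin 8) ℂ} (hA : A ∈ SC z 2 8) :
    (∀ a b : Fin 8, a ≤ 3 → b ≤ 3 → A a b = A a 2 * A 2 b + A a 3 * A 3 b) ∧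
    (∀ a b : Fin 8, a ≤ 5 → b ≤ 5 →
      A a b = A a 2 * A 2 b + A a 3 * A 3 b + A a 4 * A 4 b + A a 5 * A 5 b) := by
  constructor
  · intro a b ha hb
    have h := hA.1.2 3 3
    rw [cornerRank_perm] at h
    simp only [hz] at h
    let r : Fin 2 → {a : Fin 8 // a ≤ 3} := ![⟨2, by decide⟩, ⟨3, by decide⟩]
    have := schur_of_rank_le (A.toBlock (fun a => a ≤ 3) (fun b => b ≤ 3)) r r (by
      intro i j
      rw [Matrix.toBlock_apply, hA.2 _ _ (by revert i; decide) (by revert i; decide)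
        (by revert j; decide)]
      exact if_congr (by revert i j; decide) rfl rfl) (h.trans (by decide)) ⟨a, ha⟩ ⟨b, hb⟩
    simpa [Fin.sum_univ_succ, r] using this
  · intro a b ha hb
    have h := hA.1.2 5 5
    rw [cornerRank_perm] at h
    simp only [hz] at h
    let r : Fin 4 → {a : Fin 8 // a ≤ 5} :=
      ![⟨2, by decide⟩, ⟨3, by decide⟩, ⟨4, by decide⟩, ⟨5, by decide⟩]
    have := schur_of_rank_le (A.toBlock (fun a => a ≤ 5) (fun b => b ≤ 5)) r r (by
      intro i j
      rw [Matrix.toBlock_apply, hA.2 _ _ (by revert i; decide) (by revert i; decide)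
        (by revert j; decide)]
      exact if_congr (by revert i j; decide) rfl rfl) (h.trans (by decide)) ⟨a, ha⟩ ⟨b, hb⟩
    simpa [Fin.sum_univ_succ, r, add_assoc] using this

theorem table8 : ∀ i j : Fin 8,
    let c : Fin 8 → Fin 8 → ℕ := fun i i0 => (Finset.univ.filter fun a => a ≤ i ∧ ¬ a ≤ i0).card
    let r := (Finset.univ.filter fun a => a ≤ i ∧ v8 a ≤ j).card
    (Finset.univ.filter fun a => a ≤ i).card ≤ r ∨ (Finset.univ.filter fun a => a ≤ j).card ≤ r ∨
      2 + c i 3 + c j 3 ≤ r ∨ 3 + c i 3 + c j 5 ≤ r ∨ 3 + c i 5 + c j 3 ≤ r ∨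
      4 + c i 5 + c j 5 ≤ r := by
  decide +kernel

theorem mem_MX8 (hz : ∀ a, z a = v8 a) {A : Matrix (Fin 8) (Fin 8) ℂ} (hs : A.IsSymm)
    (h1 : ∀ a b : Fin 8, a ≤ 3 → b ≤ 3 → A a b = A a 2 * A 2 b + A a 3 * A 3 b)
    (h2 : ∀ a b : Fin 8, a ≤ 5 → b ≤ 5 →
      A a b = A a 2 * A 2 b + A a 3 * A 3 b + A a 4 * A 4 b + A a 5 * A 5 b)
    (c : ℂ) (h3 : ∀ a : Fin 8, a ≤ 3 → A a 5 = c * A a 4) : A ∈ MX z := by
  have r33 : cornerRank A 3 3 ≤ 2 :=
    rank_toBlock_le_of_sum A _ _ ![fun a => A a 2, fun a => A a 3] ![A 2, A 3] fun a b ha hb => by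
      simpa [Fin.sum_univ_succ] using h1 a b ha hb
  have r55 : cornerRank A 5 5 ≤ 4 :=
    rank_toBlock_le_of_sum A _ _ ![fun a => A a 2, fun a => A a 3, fun a => A a 4, fun a => A a 5]
      ![A 2, A 3, A 4, A 5] fun a b ha hb => by
      simpa [Fin.sum_univ_succ, add_assoc] using h2 a b ha hb
  have r35 : cornerRank A 3 5 ≤ 3 :=
    rank_toBlock_le_of_sum A _ _ ![fun a => A a 2, fun a => A a 3, fun a => A a 4]
      ![A 2, A 3, fun b => A 4 b + c * A 5 b] fun a b ha hb => by
      rw [h2 a b (ha.trans (by decide)) hb, h3 a ha]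
      simp [Fin.sum_univ_succ]
      ring
  have r53 : cornerRank A 5 3 ≤ 3 := by
    rw [cornerRank, ← rank_toBlock_transpose, hs.eq]
    exact r35
  refine ⟨hs, fun i j => ?_⟩
  rw [cornerRank_perm]
  simp only [hz]
  have t := table8 i j
  have a1 := cornerRank_le_left A i j
  have a2 := cornerRank_le_right A i j
  have a3 := cornerRank_le_add A i j 3 3
  have a4 := cornerRank_le_add A i j 3 5
  have a5 := cornerRank_le_add A i j 5 3
  have a6 := cornerRank_le_add A i j 5 5
  simp only at t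
  omega

/-- The symmetric matrix with prescribed first two rows. -/
def bigA (q : Fin 2 → Fin 8 → ℂ) : Matrix (Fin 8) (Fin 8) ℂ :=
  Matrix.of fun a b =>
    if ha : a.1 < 2 then
      (if hb : b.1 < 2 then q ⟨a, ha⟩ 2 * q ⟨b, hb⟩ 2 + q ⟨a, ha⟩ 3 * q ⟨b, hb⟩ 3 else q ⟨a, ha⟩ b)
    else if hb : b.1 < 2 then q ⟨b, hb⟩ a else if a = b then 1 else 0

theorem bigA_mem (hz : ∀ a, z a = v8 a) (q : Fin 2 → Fin 8 → ℂ) (c : ℂ) (hc : c * c = -1)
    (hq : ∀ a, q a 5 = c * q a 4) : bigA q ∈ SC z 2 8 := by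
  refine ⟨mem_MX8 hz ?_ ?_ ?_ c ?_, ?_⟩
  · ext a b
    simp only [bigA, Matrix.transpose_apply, Matrix.of_apply]
    split_ifs with h1 h2 h3 h4 h5 h6
    · ring
    all_goals first | rfl | exact absurd h4.symm h5 | exact absurd h6.symm h4
  · intro a b ha hb
    fin_cases a <;> simp at ha <;> fin_cases b <;> simp at hb <;> simp [bigA]
  · intro a b ha hb
    fin_cases a <;> simp at ha <;> fin_cases b <;> simp at hb <;> simp [bigA, hq] <;>
      first
      | linear_combination (-(q 0 4 * q 0 4)) * hc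
      | linear_combination (-(q 0 4 * q 1 4)) * hc
      | linear_combination (-(q 1 4 * q 1 4)) * hc
  · intro a ha
    fin_cases a <;> simp at ha <;> simp [bigA, hq]
  · intro a b ha _ hb
    simp only [bigA, Matrix.of_apply]
    rw [dif_neg (by omega), dif_neg (by omega)]

/-- The first two indices. -/
def lo (a : Fin 2) : Fin 8 := ⟨a.1, by omega⟩

/-- The free columns. -/
def col : Fin 4 → Fin 8 := ![2, 3, 6, 7]

theorem two_cond (hz : ∀ a, z a = v8 a) {A : Matrix (Fin 8) (Fin 8) ℂ} (hA : A ∈ SC z 2 8) :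
    (fun a => A (lo a) 5 - Complex.I * A (lo a) 4) = 0 ∨
      (fun a => A (lo a) 5 + Complex.I * A (lo a) 4) = 0 := by
  obtain ⟨h1, h2⟩ := schur8 hz hA
  have key : ∀ a b : Fin 8, a ≤ 3 → b ≤ 3 → A a 4 * A b 4 + A a 5 * A b 5 = 0 := by
    intro a b ha hb
    have e1 := h1 a b ha hb
    have e2 := h2 a b (ha.trans (by decide)) (hb.trans (by decide))
    rw [hA.1.1.apply 4 b, hA.1.1.apply 5 b]
    linear_combination e1 - e2
  have k00 := key 0 0 (by decide) (by decide)
  have k01 := key 0 1 (by decide) (by decide)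
  have k11 := key 1 1 (by decide) (by decide)
  have hI := Complex.I_mul_I
  have p00 : (A 0 5 - Complex.I * A 0 4) * (A 0 5 + Complex.I * A 0 4) = 0 := by
    linear_combination k00 - A 0 4 * A 0 4 * hI
  have p11 : (A 1 5 - Complex.I * A 1 4) * (A 1 5 + Complex.I * A 1 4) = 0 := by
    linear_combination k11 - A 1 4 * A 1 4 * hI
  have p01 : (A 0 5 - Complex.I * A 0 4) * (A 1 5 + Complex.I * A 1 4) +
      (A 1 5 - Complex.I * A 1 4) * (A 0 5 + Complex.I * A 0 4) = 0 := by
    linear_combination 2 * k01 - 2 * A 0 4 * A 1 4 * hI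
  have l0 : lo 0 = 0 := rfl
  have l1 : lo 1 = 1 := rfl
  simp only [funext_iff, Fin.forall_fin_two, l0, l1, Pi.zero_apply]
  by_cases h0 : A 0 5 - Complex.I * A 0 4 = 0
  · by_cases h1 : A 1 5 - Complex.I * A 1 4 = 0
    · exact Or.inl ⟨h0, h1⟩
    · rw [h0, zero_mul, zero_add] at p01
      exact Or.inr ⟨(mul_eq_zero.mp p01).resolve_left h1, (mul_eq_zero.mp p11).resolve_left h1⟩
  · have h2 := (mul_eq_zero.mp p00).resolve_left h0
    rw [h2, mul_zero, add_zero] at p01
    exact Or.inr ⟨h2, (mul_eq_zero.mp p01).resolve_left h0⟩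

theorem HM8 (hz : ∀ a, z a = v8 a) :
    HM (uC 8 2 8) (SC z 2 8) *
      ∏ j : Fin 2 × Fin 4, (1 - MvPowerSeries.monomial (Finsupp.single (lo j.1) 1) (1 : ℤ)) =
    hs (Sum.elim (fun a => Finsupp.single (lo a) 1) (fun a => Finsupp.single (lo a) 1))
      (twoF (Fin 2)) := by
  have hprod := hs_prod (Z := Two (Fin 2)) (J := Fin 2 × Fin 4)
    (w := Sum.elim (fun a => Finsupp.single (lo a) 1) (fun a => Finsupp.single (lo a) 1))
    (f := twoF (Fin 2)) (by rintro (a | a) h <;> simp at h)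
    (v := fun j => Finsupp.single (lo j.1) 1) (by simp)
  rw [← hprod]
  congr 1
  let Ψ : SC z 2 8 → Two (Fin 2) × (Fin 2 × Fin 4 → ℂ) := fun A =>
    (⟨(fun a => A.1 (lo a) 5 - Complex.I * A.1 (lo a) 4,
      fun a => A.1 (lo a) 5 + Complex.I * A.1 (lo a) 4), two_cond hz A.2⟩,
      fun j => A.1 (lo j.1) (col j.2))
  have hI := Complex.I_mul_I
  have hΨ : Function.Surjective Ψ := by
    rintro ⟨⟨⟨U, V⟩, hUV⟩, y⟩
    let q : Fin 2 → Fin 8 → ℂ := fun a =>
      ![0, 0, y (a, 0), y (a, 1), Complex.I * (U a - V a) / 2, (U a + V a) / 2, y (a, 2), y (a, 3)]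
    have hq : bigA q ∈ SC z 2 8 := by
      rcases hUV with h | h
      · obtain rfl : U = 0 := h
        refine bigA_mem hz q Complex.I hI fun a => ?_
        simp only [q]
        simp
        linear_combination (V a / 2) * hI
      · obtain rfl : V = 0 := h
        refine bigA_mem hz q (-Complex.I) (by simp) fun a => ?_
        simp only [q]
        simp
        linear_combination (U a / 2) * hI
    have hb : ∀ (a : Fin 2) (b : Fin 8), 2 ≤ b.1 → bigA q (lo a) b = q a b := by
      intro a b hb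
      simp only [bigA, Matrix.of_apply]
      rw [dif_pos (show (lo a).1 < 2 from a.2), dif_neg (by omega)]
      rfl
    refine ⟨⟨bigA q, hq⟩, Prod.ext (Subtype.ext (Prod.ext ?_ ?_)) ?_⟩
    · funext a
      simp only [Ψ]
      rw [hb a 5 (by decide), hb a 4 (by decide)]
      simp only [q]
      simp
      linear_combination (-(U a - V a) / 2) * hI
    · funext a
      simp only [Ψ]
      rw [hb a 5 (by decide), hb a 4 (by decide)]
      simp only [q]
      simp
      linear_combination ((U a - V a) / 2) * hI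
    · funext ⟨a, k⟩
      simp only [Ψ]
      rw [hb a _ (by revert k; decide)]
      fin_cases k <;> simp [q, col]
  rw [HM, ← hs_map_of_injective (pull Ψ) (pull_injective hΨ)]
  set w : (Fin 2 ⊕ Fin 2) ⊕ Fin 2 × Fin 4 → Fin 8 →₀ ℕ :=
    Sum.elim (Sum.elim (fun a => Finsupp.single (lo a) 1) (fun a => Finsupp.single (lo a) 1))
      (fun j => Finsupp.single (lo j.1) 1) with hw
  set E : Fin 8 → Fin 8 → SC z 2 8 → ℂ := fun a b A => A.1 a b with hE
  set g : (Fin 2 ⊕ Fin 2) ⊕ Fin 2 × Fin 4 → SC z 2 8 → ℂ :=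
    Sum.elim (Sum.elim (fun a => E (lo a) 5 - Complex.I • E (lo a) 4)
      (fun a => E (lo a) 5 + Complex.I • E (lo a) 4)) (fun j => E (lo j.1) (col j.2)) with hg
  have hgg : (fun s => pull Ψ (Sum.elim (fun s (x : Two (Fin 2) × (Fin 2 × Fin 4 → ℂ)) =>
      twoF (Fin 2) s x.1) (fun j x => x.2 j) s)) = g := by
    funext s
    rcases s with (a | a) | j <;> rfl
  rw [hgg]
  have hsym : ∀ a b, E a b = E b a := fun a b => funext fun A => A.2.1.1.apply b a
  have hulo : ∀ a, uC 8 2 8 (lo a) = Finsupp.single (lo a) 1 := fun a =>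
    if_neg fun h => absurd a.2 (not_lt.mpr h.1)
  have huhi : ∀ b : Fin 8, 2 ≤ b.1 → uC 8 2 8 b = 0 := fun b hb => if_pos ⟨hb, b.2⟩
  apply hs_eq_of_gen
  · have hq : ∀ (a : Fin 2) (b : Fin 8), 2 ≤ b.1 →
        E (lo a) b ∈ gp w g (Finsupp.single (lo a) 1) := by
      intro a b hb
      have hU : g (Sum.inl (Sum.inl a)) ∈ gp w g (Finsupp.single (lo a) 1) :=
        gen_mem_gp w g (Sum.inl (Sum.inl a))
      have hV : g (Sum.inl (Sum.inr a)) ∈ gp w g (Finsupp.single (lo a) 1) :=
        gen_mem_gp w g (Sum.inl (Sum.inr a))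
      have hy : ∀ k, E (lo a) (col k) ∈ gp w g (Finsupp.single (lo a) 1) :=
        fun k => gen_mem_gp w g (Sum.inr (a, k))
      have hb' : b = col 0 ∨ b = col 1 ∨ b = col 2 ∨ b = col 3 ∨ b = 4 ∨ b = 5 := by
        revert b; decide
      rcases hb' with rfl | rfl | rfl | rfl | rfl | rfl
      · exact hy 0
      · exact hy 1
      · exact hy 2
      · exact hy 3
      · have : E (lo a) 4 =
            (Complex.I / 2) • (g (Sum.inl (Sum.inl a)) - g (Sum.inl (Sum.inr a))) := by
          funext A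
          simp [hg]
          linear_combination (E (lo a) 4 A) * hI
        rw [this]
        exact Submodule.smul_mem _ _ (Submodule.sub_mem _ hU hV)
      · have : E (lo a) 5 =
            (1 / 2 : ℂ) • (g (Sum.inl (Sum.inl a)) + g (Sum.inl (Sum.inr a))) := by
          funext A
          simp [hg]
          ring
        rw [this]
        exact Submodule.smul_mem _ _ (Submodule.add_mem _ hU hV)
    rintro ⟨a, b⟩
    change E a b ∈ gp w g (uC 8 2 8 a + uC 8 2 8 b)
    by_cases ha : a.1 < 2 <;> by_cases hb : b.1 < 2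
    · obtain ⟨a, rfl⟩ : ∃ a', lo a' = a := ⟨⟨a.1, ha⟩, rfl⟩
      obtain ⟨b, rfl⟩ : ∃ b', lo b' = b := ⟨⟨b.1, hb⟩, rfl⟩
      have : E (lo a) (lo b) = E (lo a) 2 * E (lo b) 2 + E (lo a) 3 * E (lo b) 3 := by
        rw [hsym (lo b) 2, hsym (lo b) 3]
        exact funext fun A => (schur8 hz A.2).1 _ _ (by revert a; decide) (by revert b; decide)
      rw [this, hulo, hulo]
      exact Submodule.add_mem _ (mul_mem_gp (hq a 2 (by decide)) (hq b 2 (by decide)))
        (mul_mem_gp (hq a 3 (by decide)) (hq b 3 (by decide)))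
    · obtain ⟨a, rfl⟩ : ∃ a', lo a' = a := ⟨⟨a.1, ha⟩, rfl⟩
      rw [hulo, huhi b (by omega), add_zero]
      exact hq a b (by omega)
    · obtain ⟨b, rfl⟩ : ∃ b', lo b' = b := ⟨⟨b.1, hb⟩, rfl⟩
      rw [hulo, huhi a (by omega), zero_add, hsym]
      exact hq b a (by omega)
    · apply dead_mem
      rw [huhi a (by omega), huhi b (by omega), add_zero]
      by_cases hab : a = b
      · right
        exact ⟨rfl, funext fun A => (A.2.2 a b (by omega) a.2 (by omega)).trans (if_pos hab)⟩
      · left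
        exact funext fun A => (A.2.2 a b (by omega) a.2 (by omega)).trans (if_neg hab)
  · have hq : ∀ (a : Fin 2) (b : Fin 8), 2 ≤ b.1 → E (lo a) b ∈
        gp (fun s : Fin 8 × Fin 8 => uC 8 2 8 s.1 + uC 8 2 8 s.2) (fun s => E s.1 s.2)
          (Finsupp.single (lo a) 1) := fun a b hb =>
      gen_mem_gp' _ _ (lo a, b) rfl (by rw [hulo, huhi b hb, add_zero])
    rintro ((a | a) | j)
    · exact Submodule.sub_mem _ (hq a 5 (by decide)) (Submodule.smul_mem _ _ (hq a 4 (by decide)))
    · exact Submodule.add_mem _ (hq a 5 (by decide)) (Submodule.smul_mem _ _ (hq a 4 (by decide)))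
    · exact hq j.1 _ (by revert j; decide)

theorem spC_Kz8 (hz : ∀ a, z a = v8 a) :
    spC 8 2 8 (Kz z) = (1 - X 0 ^ 2) * (1 - X 0 * X 1) * (1 - X 1 ^ 2) * ((1 - X 0) * (1 - X 1)) *
      (2 - (1 - X 0) * (1 - X 1)) := by
  have h1 := chain z 2 8 (by norm_num) le_rfl
  have h2 := HM8 hz
  have h3 := hs_two (σ := Fin 2) (w := fun a => Finsupp.single (lo a) 1) (by simp)
  have l0 : lo 0 = 0 := rfl
  have l1 : lo 1 = 1 := rfl
  have hX : ∀ i : Fin 8, MvPowerSeries.monomial (Finsupp.single i 1) (1 : ℤ) =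
      MvPowerSeries.X i := fun i => rfl
  have hX' : ∀ i : Fin 8, (monomial (Finsupp.single i 1) (1 : ℤ) : MvPolynomial (Fin 8) ℤ) = X i :=
    fun i => rfl
  have hm : ∀ a b : Fin 8 →₀ ℕ, (monomial (a + b) (1 : ℤ) : MvPolynomial (Fin 8) ℤ) =
      monomial a 1 * monomial b 1 := fun a b => by rw [monomial_mul, one_mul]
  simp only [Fintype.prod_prod_type, Fin.prod_univ_two, Finset.prod_const, Finset.card_univ,
    Fintype.card_fin, l0, l1, hX] at h2 h3
  have h4 : DC 8 2 8 = (1 - X 0 ^ 2) * (1 - X 0 * X 1) * (1 - X 1 ^ 2) *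
      ((1 - X 0) ^ 6 * (1 - X 1) ^ 6) := by
    have : (Finset.univ.filter fun a : Fin 8 => ¬ (2 ≤ a.1 ∧ a.1 < 8)) = {0, 1} := by decide
    rw [DC, this, Finset.prod_pair (by decide)]
    simp only [prod_Ici_eq, Fin.prod_univ_eight, hm]
    simp [uC, hX']
    ring
  apply coe_injective (Fin 8) ℤ
  rw [h1, h4]
  have h5 : ((2 : MvPolynomial (Fin 8) ℤ) : MvPowerSeries (Fin 8) ℤ) = 2 :=
    map_ofNat (coeToMvPowerSeries.ringHom : MvPolynomial (Fin 8) ℤ →+* MvPowerSeries (Fin 8) ℤ) 2
  simp only [coe_mul, coe_sub', coe_pow, coe_one, coe_X, h5]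
  rw [← h3, ← h2]
  ring

end Eight

end Pool.Agent.MP_ef387b_co

end

section

/-!
Existence of the stable limit for every involution, and a negative coefficient for `351624`.
-/

namespace Pool.Agent.MP_ef387b_co

open MvPolynomial

theorem oneTimes_castAdd (m : ℕ) {n : ℕ} (z : Equiv.Perm (Fin n)) (i : Fin m) :
    oneTimes m z (Fin.castAdd n i) = Fin.castAdd n i := by
  simp [oneTimes, Equiv.permCongr_apply]

theorem oneTimes_natAdd (m : ℕ) {n : ℕ} (z : Equiv.Perm (Fin n)) (j : Fin n) :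
    oneTimes m z (Fin.natAdd m j) = Fin.natAdd m (z j) := by
  simp [oneTimes, Equiv.permCongr_apply]

theorem oneTimes_of_lt (m : ℕ) {n : ℕ} (z : Equiv.Perm (Fin n)) (a : Fin (m + n)) (ha : a.1 < m) :
    oneTimes m z a = a :=
  oneTimes_castAdd m z ⟨a.1, ha⟩

/-- Skipping the index `r`. -/
def skip (m n r : ℕ) (a : Fin (m + n)) : Fin (m + 1 + n) :=
  ⟨if a.1 < r then a.1 else a.1 + 1, by split_ifs <;> omega⟩

theorem ins_oneTimes {m n r : ℕ} (hr : r ≤ m) (z : Equiv.Perm (Fin n)) :
    Ins (oneTimes m z) (oneTimes (m + 1) z) ⟨r, by omega⟩ (skip m n r) where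
  mono := by
    intro a b hab
    have : a.1 < b.1 := hab
    simp only [skip, Fin.mk_lt_mk]
    split_ifs <;> omega
  ne := by
    intro a h
    have := congrArg Fin.val h
    simp only [skip] at this
    split_ifs at this <;> omega
  cover := by
    intro b
    rcases lt_trichotomy b.1 r with h | h | h
    · right
      exact ⟨⟨b.1, by omega⟩, Fin.ext (by simp [skip, h])⟩
    · left
      exact Fin.ext h
    · right
      refine ⟨⟨b.1 - 1, by omega⟩, Fin.ext ?_⟩
      simp only [skip]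
      rw [if_neg (by omega)]
      omega
  fix := by
    intro b hb
    have : b.1 ≤ r := hb
    exact oneTimes_of_lt _ z b (by omega)
  comm := by
    intro a
    induction a using Fin.addCases with
    | left i =>
      rw [oneTimes_castAdd, oneTimes_of_lt]
      have := i.2
      simp only [skip, Fin.val_castAdd]
      split_ifs <;> omega
    | right j =>
      have key : ∀ j : Fin n, skip m n r (Fin.natAdd m j) = Fin.natAdd (m + 1) j := by
        intro j
        apply Fin.ext
        simp only [skip, Fin.val_natAdd]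
        rw [if_neg (by omega)]
        omega
      rw [oneTimes_natAdd, key, key, oneTimes_natAdd]

/-- Setting the variables `a_i`, `i ≥ r`, equal to `1`. -/
noncomputable def spec (r : ℕ) : MvPolynomial ℕ ℤ →ₐ[ℤ] MvPolynomial ℕ ℤ :=
  aeval fun i => if i < r then X i else 1

/-- Setting the variables `x_i`, `i ≥ r`, equal to `0`. -/
noncomputable def kill (r : ℕ) :
    MvPolynomial ℕ (Polynomial ℤ) →ₐ[Polynomial ℤ] MvPolynomial ℕ (Polynomial ℤ) :=
  aeval fun i => if i < r then X i else 0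

theorem kill_sub1 (r : ℕ) (K : MvPolynomial ℕ ℤ) : kill r (sub1 ℕ K) = sub1 ℕ (spec r K) := by
  have : ((kill r).restrictScalars ℤ).comp (sub1 ℕ) = (sub1 ℕ).comp (spec r) := by
    apply MvPolynomial.algHom_ext
    intro i
    by_cases h : i < r <;> simp [kill, sub1, spec, h]
  exact DFunLike.congr_fun this K

theorem kill_monomial (r : ℕ) (β : ℕ →₀ ℕ) (c : Polynomial ℤ) :
    kill r (monomial β c) = if ∀ i ∈ β.support, i < r then monomial β c else 0 := by
  rw [kill, aeval_monomial]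
  split_ifs with h
  · rw [monomial_eq, algebraMap_eq]
    congr 1
    exact Finsupp.prod_congr fun i hi => by rw [if_pos (h i hi)]
  · push Not at h
    obtain ⟨i, hi, hr⟩ := h
    rw [Finsupp.prod, Finset.prod_eq_zero hi, mul_zero]
    rw [if_neg (not_lt.mpr hr), zero_pow (Finsupp.mem_support_iff.mp hi)]

theorem coeff_kill (r : ℕ) (α : ℕ →₀ ℕ) (P : MvPolynomial ℕ (Polynomial ℤ)) :
    coeff α (kill r P) = if ∀ i ∈ α.support, i < r then coeff α P else 0 := by
  induction P using MvPolynomial.induction_on' with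
  | monomial β c =>
    rw [kill_monomial]
    by_cases h : β = α
    · subst h
      split_ifs <;> simp
    · split_ifs <;> simp [coeff_monomial, h]
  | add P Q hP hQ =>
    rw [map_add, coeff_add, hP, hQ, coeff_add]
    split_ifs <;> simp

theorem rename_sub1 {N : ℕ} (K : MvPolynomial (Fin N) ℤ) :
    rename Fin.val (sub1 (Fin N) K) = sub1 ℕ (rename Fin.val K) := by
  have : ((rename Fin.val).restrictScalars ℤ).comp (sub1 (Fin N)) =
      (sub1 ℕ).comp (rename Fin.val) := by
    apply MvPolynomial.algHom_ext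
    intro i
    simp [sub1]
  exact DFunLike.congr_fun this K

theorem GN_spec {N : ℕ} (z : Equiv.Perm (Fin N)) (r : ℕ) :
    C ((-Polynomial.X) ^ cod z) * kill r (rename Fin.val (Gz z)) =
      sub1 ℕ (spec r (rename Fin.val (Kz z))) := by
  rw [← kill_sub1, ← rename_sub1, ← Gz_spec, map_mul, map_mul, rename_C, algHom_C, algebraMap_eq]

section

variable {n : ℕ} (z : Equiv.Perm (Fin n))

theorem spec_succ {m r : ℕ} (hr : r ≤ m) :
    spec r (rename Fin.val (Kz (oneTimes (m + 1) z))) =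
      spec r (rename Fin.val (Kz (oneTimes m z))) := by
  have h := (ins_oneTimes hr z).sp_Kz
  have h1 : ((spec r).comp (rename Fin.val)).comp (sp (⟨r, by omega⟩ : Fin (m + 1 + n))) =
      (spec r).comp (rename Fin.val) := by
    apply MvPolynomial.algHom_ext
    intro i
    by_cases hi : i = ⟨r, by omega⟩
    · simp [sp, spec, hi]
    · simp [sp, hi]
  have h2 : ((spec r).comp (rename Fin.val)).comp (rename (skip m n r)) =
      (spec r).comp (rename Fin.val) := by
    apply MvPolynomial.algHom_ext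
    intro i
    by_cases hi : i.1 < r
    · simp [spec, skip, hi]
    · have : ¬ i.1 + 1 < r := by omega
      simp [spec, skip, hi, this]
  have h3 := DFunLike.congr_fun h1 (Kz (oneTimes (m + 1) z))
  have h4 := DFunLike.congr_fun h2 (Kz (oneTimes m z))
  simp only [AlgHom.comp_apply] at h3 h4
  rw [← h3, h, h4]

theorem spec_const {m0 r : ℕ} (hr : r ≤ m0) : ∀ m, m0 ≤ m →
    spec r (rename Fin.val (Kz (oneTimes m z))) = spec r (rename Fin.val (Kz (oneTimes m0 z))) := by
  intro m hm
  induction m, hm using Nat.le_induction with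
  | base => rfl
  | succ m hm ih => rw [spec_succ z (hr.trans hm), ih]

theorem exists_cod_const : ∃ M0, ∀ m ≥ M0, cod (oneTimes m z) = cod (oneTimes M0 z) :=
  eventually_const_of_step (fun m => cod (oneTimes m z)) 0
    fun m _ => (ins_oneTimes (Nat.zero_le m) z).cod_le

theorem kill_const {M0 : ℕ} (hM : ∀ m ≥ M0, cod (oneTimes m z) = cod (oneTimes M0 z)) {m0 r : ℕ}
    (hr : M0 + r ≤ m0) {m : ℕ} (hm : m0 ≤ m) :
    kill r (rename Fin.val (Gz (oneTimes m z))) = kill r (rename Fin.val (Gz (oneTimes m0 z))) := by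
  have h1 := GN_spec (oneTimes m z) r
  have h2 := GN_spec (oneTimes m0 z) r
  rw [spec_const z (show r ≤ m0 by omega) m hm, hM m (by omega), ← hM m0 (by omega), ← h2] at h1
  refine mul_left_cancel₀ ?_ h1
  rw [Ne, C_eq_zero]
  exact pow_ne_zero _ (neg_ne_zero.mpr Polynomial.X_ne_zero)

/-- The stable limit exists, with an explicit rate once the codimension is constant. -/
theorem exists_limit {M0 : ℕ} (hM : ∀ m ≥ M0, cod (oneTimes m z) = cod (oneTimes M0 z)) :
    ∃ F : MvPowerSeries ℕ (Polynomial ℤ), ∀ (α : ℕ →₀ ℕ) (r : ℕ), (∀ i ∈ α.support, i < r) →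
      ∀ m ≥ M0 + r, coeff α (rename Fin.val (Gz (oneTimes m z))) = MvPowerSeries.coeff α F := by
  let b : (ℕ →₀ ℕ) → ℕ := fun α => α.support.sup fun i => i + 1
  have hb : ∀ α : ℕ →₀ ℕ, ∀ i ∈ α.support, i < b α := fun α i hi =>
    Finset.le_sup (f := fun i => i + 1) hi
  refine ⟨fun α => coeff α (rename Fin.val (Gz (oneTimes (M0 + b α) z))), fun α r hr m hm => ?_⟩
  have h1 : b α ≤ r := Finset.sup_le fun i hi => hr i hi
  have h2 := congrArg (coeff α) (kill_const z hM (le_refl (M0 + b α)) (m := m) (by omega))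
  rw [coeff_kill, coeff_kill, if_pos (hb α), if_pos (hb α)] at h2
  exact h2

end

theorem GQ_nonneg (l : StrictPartition) (α : ℕ →₀ ℕ) (j : ℕ) :
    0 ≤ (MvPowerSeries.coeff α (GQ l)).coeff j := by
  refine finsum_induction (fun q : Polynomial ℤ => 0 ≤ q.coeff j) (by simp) ?_ ?_
  · intro a b ha hb
    rw [Polynomial.coeff_add]
    exact add_nonneg ha hb
  · intro T
    rw [Polynomial.coeff_X_pow]
    split_ifs <;> simp

theorem InGQSpan.nonneg {F : MvPowerSeries ℕ (Polynomial ℤ)} (h : InGQSpan F) (α : ℕ →₀ ℕ)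
    (j : ℕ) : 0 ≤ (MvPowerSeries.coeff α F).coeff j := by
  obtain ⟨S, c, rfl⟩ := h
  rw [map_sum, Polynomial.finsetSum_coeff]
  refine Finset.sum_nonneg fun l _ => ?_
  rw [map_smul, smul_eq_mul, Polynomial.coeff_mul]
  refine Finset.sum_nonneg fun x _ => mul_nonneg ?_ (GQ_nonneg l α _)
  simp

/-- Evaluation at `β = 1`, `x_i = t`. -/
noncomputable def evt (t : ℤ) : MvPolynomial ℕ (Polynomial ℤ) →+* ℤ :=
  eval₂Hom (Polynomial.evalRingHom 1) fun _ => t

theorem evt_nonneg {t : ℤ} (ht : 0 ≤ t) (P : MvPolynomial ℕ (Polynomial ℤ))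
    (hP : ∀ α j, 0 ≤ (coeff α P).coeff j) : 0 ≤ evt t P := by
  rw [evt, coe_eval₂Hom, eval₂_eq]
  refine Finset.sum_nonneg fun α _ => mul_nonneg ?_
    (Finset.prod_nonneg fun i _ => pow_nonneg ht _)
  rw [Polynomial.coe_evalRingHom, Polynomial.eval_eq_sum_range]
  exact Finset.sum_nonneg fun j _ => mul_nonneg (hP α j) (by simp)

theorem evt_K (t : ℤ) (K : MvPolynomial (Fin 8) ℤ) :
    evt t (sub1 ℕ (spec 2 (rename Fin.val K))) = eval (fun _ => 1 + t) (spC 8 2 8 K) := by
  induction K using MvPolynomial.induction_on with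
  | C a => simp
  | add P Q hP hQ => simp only [map_add, hP, hQ]
  | mul_X P i hP =>
    simp only [map_mul, hP]
    congr 1
    by_cases h : i.1 < 2
    · have : ¬ 2 ≤ i.1 := by omega
      rw [rename_X, spec, aeval_X, if_pos h]
      simp [evt, sub1, spC, this]
    · have : 2 ≤ i.1 := by omega
      rw [rename_X, spec, aeval_X, if_neg h]
      simp [spC, this]

theorem not_inGQSpan {M0 : ℕ} {F : MvPowerSeries ℕ (Polynomial ℤ)} (hF : ∀ (α : ℕ →₀ ℕ) (r : ℕ), (∀ i ∈ α.support, i < r) →
      ∀ m ≥ M0 + r, coeff α (rename Fin.val (Gz (oneTimes m z351624))) = MvPowerSeries.coeff α F) :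
    ¬ InGQSpan F := by
  intro h
  have hP : ∀ α j,
      0 ≤ (coeff α (kill 2 (rename Fin.val (Gz (oneTimes (M0 + 2) z351624))))).coeff j := by
    intro α j
    rw [coeff_kill]
    split_ifs with hα
    · rw [hF α 2 hα _ le_rfl]
      exact h.nonneg α j
    · simp
  have h1 := GN_spec (oneTimes (M0 + 2) z351624) 2
  rw [spec_const z351624 (le_refl 2) (M0 + 2) (by omega)] at h1
  have hz : ∀ a : Fin 8, oneTimes 2 z351624 a = v8 a := by decide
  have h2 : ∀ t : ℤ, (-1) ^ cod (oneTimes (M0 + 2) z351624) *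
      evt t (kill 2 (rename Fin.val (Gz (oneTimes (M0 + 2) z351624)))) =
      eval (fun _ => 1 + t) (spC 8 2 8 (Kz (N := 8) (oneTimes 2 z351624))) := by
    intro t
    rw [← evt_K, ← h1, map_mul]
    simp [evt]
  have e1 := h2 1
  have e2 := h2 2
  rw [spC_Kz8 hz] at e1 e2
  have n1 := evt_nonneg zero_le_one _ hP
  have n2 := evt_nonneg zero_le_two _ hP
  norm_num at e1 e2
  rcases neg_one_pow_eq_or ℤ (cod (oneTimes (M0 + 2) z351624)) with hc | hc
  · rw [hc] at e1
    linarith
  · rw [hc] at e2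
    linarith

end Pool.Agent.MP_ef387b_co

end
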