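import Pool.Agent.Mg.Fef387b.G56f126
import Pool.Agent.MP_ef387b_co.Defs

section

/-!
Specialising one torus variable to `1` corresponds to cutting by a hyperplane `a = 1`.
-/

namespace Pool.Agent.MP_ef387b_co

open MvPolynomial Filter

section Lim

variable {τ : Type*} [DecidableEq τ]

/-- Setting the variable `p` equal to `1`. -/
noncomputable def sp (p : τ) : MvPolynomial τ ℤ →ₐ[ℤ] MvPolynomial τ ℤ :=
  aeval (fun i => if i = p then 1 else X i)

theorem sp_monomial (p : τ) (ν : τ →₀ ℕ) (c : ℤ) :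
    sp p (monomial ν c) = monomial (ν.erase p) c := by
  have h : ∀ ν : τ →₀ ℕ, sp p (monomial ν 1) = monomial (ν.erase p) 1 := by
    intro ν
    induction ν using Finsupp.induction_linear with
    | zero => simp
    | add a b ha hb =>
      rw [Finsupp.erase_add, ← one_mul (1 : ℤ), ← monomial_mul, ← monomial_mul, map_mul, ha, hb]
    | single i k =>
      rw [← X_pow_eq_monomial, map_pow]
      by_cases hi : i = p
      · subst hi; simp [sp]
      · rw [Finsupp.erase_single_ne (Ne.symm hi), ← X_pow_eq_monomial]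
        simp [sp, hi]
  have h2 : ∀ ν : τ →₀ ℕ, (monomial ν c : MvPolynomial τ ℤ) = c • monomial ν 1 := by
    intro ν; rw [smul_monomial, smul_eq_mul, mul_one]
  rw [h2, map_smul, h, h2 (ν.erase p)]

/-- `F'` is the limit of the coefficients of `F` in the direction `p`. -/
def Lim (p : τ) (F F' : MvPowerSeries τ ℤ) : Prop :=
  ∀ μ : τ →₀ ℕ, ∀ᶠ k in atTop, MvPowerSeries.coeff μ F' =
    if μ p = 0 then MvPowerSeries.coeff (μ + Finsupp.single p k) F else 0

omit [DecidableEq τ] in
theorem Lim.unique {p : τ} {F F1 F2 : MvPowerSeries τ ℤ} (h1 : Lim p F F1) (h2 : Lim p F F2) :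
    F1 = F2 := by
  ext μ
  obtain ⟨k, hk1, hk2⟩ := ((h1 μ).and (h2 μ)).exists
  rw [hk1, hk2]

omit [DecidableEq τ] in
theorem Lim.add {p : τ} {F F' G G' : MvPowerSeries τ ℤ} (h1 : Lim p F F') (h2 : Lim p G G') :
    Lim p (F + G) (F' + G') := by
  intro μ
  filter_upwards [h1 μ, h2 μ] with k hk1 hk2
  rw [map_add, map_add, hk1, hk2]
  split_ifs <;> simp

theorem Lim.mul_monomial {p : τ} {F F' : MvPowerSeries τ ℤ} (h : Lim p F F') (ν : τ →₀ ℕ) (c : ℤ) :
    Lim p (F * MvPowerSeries.monomial ν c) (F' * MvPowerSeries.monomial (ν.erase p) c) := by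
  intro μ
  obtain ⟨k0, hk0⟩ := eventually_atTop.mp (h (μ - ν.erase p))
  filter_upwards [eventually_ge_atTop (k0 + ν p)] with k hk
  rw [MvPowerSeries.coeff_mul_monomial, MvPowerSeries.coeff_mul_monomial,
    hk0 (k - ν p) (by omega)]
  have e1 : (μ - ν.erase p) p = μ p := by simp
  rw [e1]
  by_cases hμ : μ p = 0
  · simp only [if_pos hμ]
    have e2 : ν.erase p ≤ μ ↔ ν ≤ μ + Finsupp.single p k := by
      simp only [Finsupp.le_def]
      refine forall_congr' fun i => ?_
      by_cases hi : i = p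
      · subst hi; simp; omega
      · simp [Finsupp.erase_ne hi, Finsupp.single_eq_of_ne hi]
    have e3 : μ - ν.erase p + Finsupp.single p (k - ν p) = μ + Finsupp.single p k - ν := by
      ext i
      by_cases hi : i = p
      · subst hi; simp [hμ]
      · simp [Finsupp.erase_ne hi, Finsupp.single_eq_of_ne hi]
    rw [e3]
    simp only [e2]
  · simp [hμ]

theorem Lim.mul_poly {p : τ} {F F' : MvPowerSeries τ ℤ} (h : Lim p F F') (D : MvPolynomial τ ℤ) :
    Lim p (F * D) (F' * (sp p D : MvPolynomial τ ℤ)) := by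
  induction D using MvPolynomial.induction_on' with
  | monomial ν c => rw [sp_monomial, coe_monomial, coe_monomial]; exact h.mul_monomial ν c
  | add P Q hP hQ => rw [map_add, coe_add, coe_add, mul_add, mul_add]; exact hP.add hQ

/-- The geometric series in the variable `p`. -/
noncomputable def geo (p : τ) : MvPowerSeries τ ℤ := fun μ => if μ.erase p = 0 then 1 else 0

theorem coeff_geo (p : τ) (μ : τ →₀ ℕ) :
    MvPowerSeries.coeff μ (geo p) = if μ.erase p = 0 then 1 else 0 := rfl

theorem lim_geo (p : τ) : Lim p (geo p) 1 := by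
  intro μ
  refine Eventually.of_forall fun k => ?_
  rw [coeff_geo, MvPowerSeries.coeff_one]
  by_cases hμ : μ p = 0
  · have : (μ + Finsupp.single p k).erase p = μ := by
      rw [Finsupp.erase_add, Finsupp.erase_single, add_zero,
        Finsupp.erase_of_notMem_support (by simpa using hμ)]
    rw [if_pos hμ, this]
  · rw [if_neg hμ, if_neg]
    rintro rfl
    exact hμ rfl

theorem geo_mul (p : τ) :
    geo p * (1 - MvPowerSeries.monomial (Finsupp.single p 1) (1 : ℤ)) = 1 := by
  ext μ
  rw [mul_sub, mul_one, map_sub, MvPowerSeries.coeff_mul_monomial, coeff_geo, coeff_geo,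
    MvPowerSeries.coeff_one]
  by_cases hμ : μ p = 0
  · rw [Finsupp.erase_of_notMem_support (by simpa using hμ), if_neg (show ¬ Finsupp.single p 1 ≤ μ by
      rw [Finsupp.single_le_iff]; omega), sub_zero]
  · have e1 : (μ - Finsupp.single p 1).erase p = μ.erase p := by
      ext i
      by_cases hi : i = p
      · subst hi; simp
      · simp [Finsupp.erase_ne hi, Finsupp.single_eq_of_ne hi]
    rw [if_pos (show Finsupp.single p 1 ≤ μ by rw [Finsupp.single_le_iff]; omega), e1, mul_one,
      sub_self, if_neg]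
    rintro rfl
    exact hμ rfl

theorem sp_eq_of_lim {p : τ} {H H' : MvPowerSeries τ ℤ} {K D : MvPolynomial τ ℤ}
    (hlim : Lim p (H * (1 + MvPowerSeries.monomial (Finsupp.single p 1) (1 : ℤ))) H')
    (hK : (K : MvPowerSeries τ ℤ) =
      H * (1 - MvPowerSeries.monomial (Finsupp.single p 2) (1 : ℤ)) * D) :
    ((sp p K : MvPolynomial τ ℤ) : MvPowerSeries τ ℤ) = H' * (sp p D : MvPolynomial τ ℤ) := by
  have h1 := (lim_geo p).mul_poly K
  have h2 := hlim.mul_poly D
  have h3 : geo p * K = H * (1 + MvPowerSeries.monomial (Finsupp.single p 1) (1 : ℤ)) * D := by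
    have e : (MvPowerSeries.monomial (Finsupp.single p 2) (1 : ℤ) : MvPowerSeries τ ℤ) =
        MvPowerSeries.monomial (Finsupp.single p 1) (1 : ℤ) *
          MvPowerSeries.monomial (Finsupp.single p 1) (1 : ℤ) := by
      rw [MvPowerSeries.monomial_mul_monomial, ← Finsupp.single_add, one_mul]
    rw [hK, e]
    have := geo_mul p
    linear_combination (H * (1 + MvPowerSeries.monomial (Finsupp.single p 1) (1 : ℤ)) * D) * this
  rw [h3, one_mul] at h1
  exact h1.unique h2

end Lim

theorem eventually_const_of_step (d : ℕ → ℕ) (B : ℕ) (h : ∀ k ≥ B, d (k + 1) ≤ d k) :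
    ∃ k0, ∀ k ≥ k0, d k = d k0 := by
  classical
  have hex : ∃ v, ∃ k ≥ B, d k = v := ⟨_, B, le_rfl, rfl⟩
  obtain ⟨k0, hk0, hv⟩ := Nat.find_spec hex
  have hanti : ∀ k, d (k0 + k) ≤ d k0 := by
    intro k
    induction k with
    | zero => exact le_rfl
    | succ k ih => exact le_trans (h (k0 + k) (by omega)) ih
  refine ⟨k0, fun k hk => le_antisymm ?_ ?_⟩
  · obtain ⟨j, rfl⟩ := Nat.exists_eq_add_of_le hk
    exact hanti j
  · rw [hv]
    exact Nat.find_min' hex ⟨k, by omega, rfl⟩

section Slice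

variable {τ σ Z : Type*} [DecidableEq τ]

omit [DecidableEq τ] in
theorem weight_erase (w : σ → τ →₀ ℕ) (p : τ) (α : σ →₀ ℕ) :
    Finsupp.weight (fun s => (w s).erase p) α = (Finsupp.weight w α).erase p := by
  induction α using Finsupp.induction_linear with
  | zero => simp
  | add a b ha hb => rw [map_add, map_add, ha, hb, Finsupp.erase_add]
  | single s k =>
    rw [Finsupp.weight_single, Finsupp.weight_single]
    exact ((Finsupp.eraseAddHom p).map_nsmul k (w s)).symm

omit [DecidableEq τ] in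
theorem gp_scale {w : σ → τ →₀ ℕ} {f : σ → Z → ℂ} (p : τ) {x x' : Z} {c : ℂ}
    (h : ∀ s, f s x' = c ^ (w s p) * f s x) {ν : τ →₀ ℕ} {g : Z → ℂ} (hg : g ∈ gp w f ν) :
    g x' = c ^ (ν p) * g x := by
  let N : Submodule ℂ (Z → ℂ) :=
    LinearMap.eqLocus (LinearMap.proj x') (c ^ (ν p) • LinearMap.proj x)
  have hmon : ∀ α : σ →₀ ℕ, mon f α x' = c ^ (Finsupp.weight w α p) * mon f α x := by
    intro α
    induction α using Finsupp.induction_linear with
    | zero => simp [mon_zero]
    | add a b ha hb =>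
      rw [mon_add, map_add, Pi.mul_apply, Pi.mul_apply, ha, hb, Finsupp.add_apply, pow_add]
      ring
    | single s k =>
      rw [mon_single, Finsupp.weight_single, Pi.pow_apply, Pi.pow_apply, h, mul_pow, ← pow_mul,
        Finsupp.smul_apply, smul_eq_mul, mul_comm k]
  have : gp w f ν ≤ N := gp_le_iff.mpr fun α hα => by
    simp only [N, LinearMap.mem_eqLocus, LinearMap.coe_proj, Function.eval, LinearMap.smul_apply,
      smul_eq_mul]
    rw [hmon, hα]
  exact this hg

/-- Restriction of functions along a map. -/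
def pull {Y : Type*} (e : Y → Z) : (Z → ℂ) →ₐ[ℂ] (Y → ℂ) where
  toFun g := fun y => g (e y)
  map_one' := rfl
  map_mul' _ _ := rfl
  map_zero' := rfl
  map_add' _ _ := rfl
  commutes' _ := rfl

omit [DecidableEq τ] in
theorem pull_injective {Y : Type*} {e : Y → Z} (he : Function.Surjective e) :
    Function.Injective (pull e) := by
  intro g g' h
  funext x
  obtain ⟨y, rfl⟩ := he x
  exact congrFun h y

omit [DecidableEq τ] in
theorem lim_slice [Finite σ] (w : σ → τ →₀ ℕ) (f : σ → Z → ℂ) (p : τ) (s0 : σ)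
    (hw0 : w s0 = Finsupp.single p 2) (hw : ∀ s, s ≠ s0 → (w s).erase p ≠ 0)
    (hT : ∀ c : ℂ, c ≠ 0 → ∀ x, ∃ x', ∀ s, f s x' = c ^ (w s p) * f s x) :
    Lim p (hs w f * (1 + MvPowerSeries.monomial (Finsupp.single p 1) (1 : ℤ)))
      (hs (fun s => (w s).erase p) (fun s (y : {x // f s0 x = 1}) => f s y.1)) := by
  classical
  intro μ
  set w' : σ → τ →₀ ℕ := fun s => (w s).erase p with hw'
  set f' : σ → {x // f s0 x = 1} → ℂ := fun s y => f s y.1 with hf'
  by_cases hμ : μ p = 0
  swap
  · refine Eventually.of_forall fun k => ?_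
    rw [if_neg hμ, coeff_hs]
    have : gp w' f' μ = ⊥ := by
      rw [eq_bot_iff]
      refine gp_le_iff.mpr fun α hα => absurd ?_ hμ
      rw [← hα, hw', weight_erase]
      simp
    rw [this]
    simp
  simp only [if_pos hμ]
  have hwne : ∀ s, w s ≠ 0 := by
    intro s
    by_cases hs : s = s0
    · rw [hs, hw0]; simp
    · intro h0
      exact hw s hs (by rw [h0]; simp)
  have hμe : ∀ k, (μ + Finsupp.single p k).erase p = μ := fun k => by
    rw [Finsupp.erase_add, Finsupp.erase_single, add_zero,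
      Finsupp.erase_of_notMem_support (by simpa using hμ)]
  -- the bound on the p-weight of monomials not involving s0
  obtain ⟨B, hB⟩ : ∃ B : ℕ, ∀ α : σ →₀ ℕ, α s0 = 0 → Finsupp.weight w' α = μ →
      Finsupp.weight w α p ≤ B := by
    let w'' : σ → τ →₀ ℕ := fun s => if s = s0 then Finsupp.single p 1 else w' s
    have hfin := finite_weight_eq (w := w'') (fun s => by
      by_cases hs : s = s0
      · simp [w'', hs]
      · simpa [w'', hs] using hw s hs) μ
    obtain ⟨B, hB⟩ := (hfin.image fun α => Finsupp.weight w α p).bddAbove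
    refine ⟨B, fun α h0 hα => hB ⟨α, ?_, rfl⟩⟩
    rw [Set.mem_ofPred_eq, ← hα, Finsupp.weight_apply, Finsupp.weight_apply]
    refine Finsupp.sum_congr fun s hs => ?_
    have : s ≠ s0 := by rintro rfl; exact (Finsupp.mem_support_iff.mp hs) h0
    simp [w'', this]
  let V : ℕ → Submodule ℂ (Z → ℂ) := fun k => gp w f (μ + Finsupp.single p k)
  have hfd : ∀ k, FiniteDimensional ℂ (V k) := fun k => finiteDimensional_gp hwne f _
  let m : (Z → ℂ) →ₗ[ℂ] (Z → ℂ) := LinearMap.mulLeft ℂ (f s0)
  have hsurj : ∀ k ≥ B, V (k + 2) ≤ (V k).map m := by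
    intro k hk g hg
    obtain ⟨g0, hg0, h⟩ := gp_split w f s0 _ ⊥ (by
      intro α hα h0
      have := hB α h0 (by rw [hw', weight_erase, hα, hμe])
      rw [hα] at this
      simp [hμ] at this
      omega) g hg
    rw [Submodule.mem_bot] at hg0
    subst hg0
    rcases h with rfl | ⟨ν, g', h1, h2, rfl⟩
    · exact Submodule.zero_mem _
    · have : ν = μ + Finsupp.single p k := by
        rw [hw0, Finsupp.single_add, ← add_assoc] at h1
        exact (add_right_cancel h1).symm
      subst this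
      exact ⟨g', h2, by simp [m]⟩
  let d : ℕ → ℕ := fun k => Module.finrank ℂ (V k)
  have hd : ∀ k ≥ B, d (k + 2) ≤ Module.finrank ℂ ((V k).map m) := fun k hk =>
    Submodule.finrank_mono (hsurj k hk)
  have hd' : ∀ k, Module.finrank ℂ ((V k).map m) ≤ d k := fun k => Submodule.finrank_map_le _ _
  obtain ⟨k0, hk0⟩ := eventually_const_of_step (fun k => d k + d (k + 1)) B (fun k hk => by
    have := hd k hk
    have := hd' k
    show d (k + 1) + d (k + 2) ≤ d k + d (k + 1)
    omega)
  have hinj : ∀ k, k ≥ B → k ≥ k0 → ∀ g ∈ V k, f s0 * g = 0 → g = 0 := by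
    intro k hk hk' g hg h0
    have h1 := hk0 k hk'
    have h2 := hk0 (k + 1) (by omega)
    have h3 := hd k hk
    have h4 := finrank_eq_map_add_ker m (V k)
    have h6 : Module.finrank ℂ (V k ⊓ LinearMap.ker m : Submodule ℂ (Z → ℂ)) = 0 := by
      change d k + d (k + 1) = d k0 + d (k0 + 1) at h1
      change d (k + 1) + d (k + 2) = d k0 + d (k0 + 1) at h2
      change d k = _ at h4
      omega
    have h7 : (V k ⊓ LinearMap.ker m : Submodule ℂ (Z → ℂ)) = ⊥ := by
      have : FiniteDimensional ℂ (V k ⊓ LinearMap.ker m : Submodule ℂ (Z → ℂ)) :=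
        Submodule.finiteDimensional_of_le inf_le_left
      exact Submodule.finrank_eq_zero.mp h6
    have : g ∈ (V k ⊓ LinearMap.ker m : Submodule ℂ (Z → ℂ)) := ⟨hg, h0⟩
    rwa [h7, Submodule.mem_bot] at this
  let r : (Z → ℂ) →ₐ[ℂ] ({x // f s0 x = 1} → ℂ) := pull Subtype.val
  have hVp : ∀ k, (μ + Finsupp.single p k : τ →₀ ℕ) p = k := fun k => by simp [hμ]
  have hw0p : w s0 p = 2 := by rw [hw0]; simp
  have hrinj : ∀ k, k ≥ B → k ≥ k0 → ∀ g ∈ V k, r.toLinearMap g = 0 → g = 0 := by
    intro k hk hk' g hg h0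
    apply hinj k hk hk' g hg
    funext x
    by_cases hx : f s0 x = 0
    · simp [hx]
    · obtain ⟨c, hc⟩ := IsAlgClosed.exists_pow_nat_eq (f s0 x)⁻¹ (n := 2) (by norm_num)
      have hc0 : c ≠ 0 := by
        rintro rfl
        simp only [ne_eq, OfNat.ofNat_ne_zero, not_false_eq_true, zero_pow] at hc
        exact hx (inv_eq_zero.mp hc.symm)
      obtain ⟨x', hx'⟩ := hT c hc0 x
      have h1 : f s0 x' = 1 := by rw [hx', hw0p, hc, inv_mul_cancel₀ hx]
      have h2 : g x' = 0 := congrFun h0 ⟨x', h1⟩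
      rw [gp_scale p hx' hg] at h2
      have h3 : g x = 0 := (mul_eq_zero.mp h2).resolve_left (pow_ne_zero _ hc0)
      simp [h3]
  have hdisj : ∀ k, (V k).map r.toLinearMap ⊓ (V (k + 1)).map r.toLinearMap = ⊥ := by
    intro k
    rw [eq_bot_iff]
    rintro _ ⟨⟨g1, hg1, rfl⟩, g2, hg2, h12⟩
    rw [Submodule.mem_bot]
    funext y
    obtain ⟨x', hx'⟩ := hT (-1) (by norm_num) y.1
    have h1 : f s0 x' = 1 := by rw [hx', hw0p, y.2]; norm_num
    have e1 : g2 x' = g1 x' := congrFun h12 ⟨x', h1⟩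
    have e2 : g2 y.1 = g1 y.1 := congrFun h12 y
    rw [gp_scale p hx' hg1, gp_scale p hx' hg2, hVp, hVp, e2, pow_succ] at e1
    have e3 : (-1 : ℂ) ^ k * g1 y.1 = 0 := by linear_combination (-1 / 2 : ℂ) * e1
    exact (mul_eq_zero.mp e3).resolve_left (pow_ne_zero _ (by norm_num))
  have hsup : ∀ k ≥ B, (V k).map r.toLinearMap ⊔ (V (k + 1)).map r.toLinearMap = gp w' f' μ := by
    intro k hk
    have hle : ∀ k, (V k).map r.toLinearMap ≤ gp w' f' μ := by
      intro k
      rw [Submodule.map_le_iff_le_comap]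
      refine gp_le_iff.mpr fun α hα => ?_
      rw [Submodule.mem_comap, AlgHom.toLinearMap_apply, map_mon]
      exact mon_mem_gp w' f' (by rw [hw', weight_erase, hα, hμe])
    refine le_antisymm (sup_le (hle k) (hle (k + 1))) (gp_le_iff.mpr fun α hα => ?_)
    have hf0 : f' s0 = 1 := funext fun y => y.2
    have hw'0 : w' s0 = 0 := by simp [hw', hw0]
    have e1 : ∀ j, mon f' α = mon f' (α.erase s0 + Finsupp.single s0 j) := by
      intro j
      conv_lhs => rw [← Finsupp.erase_add_single s0 α]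
      rw [mon_add, mon_add, mon_single, mon_single, hf0, one_pow, one_pow]
    have e2 : Finsupp.weight w' (α.erase s0) = μ := by
      rw [← hα]
      conv_rhs => rw [← Finsupp.erase_add_single s0 α]
      rw [map_add, Finsupp.weight_single, hw'0, smul_zero, add_zero]
    have e3 := hB (α.erase s0) (by simp) e2
    have e4 : ∀ j, Finsupp.weight w (α.erase s0 + Finsupp.single s0 j) =
        μ + Finsupp.single p (Finsupp.weight w (α.erase s0) p + j * 2) := by
      intro j
      rw [map_add, Finsupp.weight_single, hw0, Finsupp.single_add, ← add_assoc, ← e2, hw',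
        weight_erase, Finsupp.erase_add_single, Finsupp.smul_single, smul_eq_mul]
    have e5 : ∀ j k, Finsupp.weight w (α.erase s0) p + j * 2 = k →
        mon f' α ∈ (V k).map r.toLinearMap := by
      intro j k hjk
      refine ⟨mon f (α.erase s0 + Finsupp.single s0 j), mon_mem_gp w f (by rw [e4, hjk]), ?_⟩
      rw [AlgHom.toLinearMap_apply, map_mon, e1 j]
      rfl
    rcases Nat.even_or_odd' (k - Finsupp.weight w (α.erase s0) p) with ⟨j, hj | hj⟩
    · exact Submodule.mem_sup_left (e5 j k (by omega))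
    · exact Submodule.mem_sup_right (e5 (j + 1) (k + 1) (by omega))
  filter_upwards [eventually_ge_atTop (B + k0 + 1)] with k hk
  obtain ⟨k, rfl⟩ : ∃ j, k = j + 1 := ⟨k - 1, by omega⟩
  rw [mul_add, mul_one, map_add, MvPowerSeries.coeff_mul_monomial, if_pos (by
    rw [Finsupp.single_le_iff, hVp]; omega), mul_one]
  have e : μ + Finsupp.single p (k + 1) - Finsupp.single p 1 = μ + Finsupp.single p k := by
    rw [Finsupp.single_add, ← add_assoc, add_tsub_cancel_right]
  rw [e, coeff_hs, coeff_hs, coeff_hs, ← hsup k (by omega)]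
  have h1 := Submodule.finrank_sup_add_finrank_inf_eq ((V k).map r.toLinearMap)
    ((V (k + 1)).map r.toLinearMap)
  rw [hdisj, finrank_bot, add_zero,
    finrank_map_of_injOn _ _ (hrinj k (by omega) (by omega)),
    finrank_map_of_injOn _ _ (hrinj (k + 1) (by omega) (by omega))] at h1
  rw [h1]
  push_cast
  exact add_comm _ _

end Slice

end Pool.Agent.MP_ef387b_co

end

section

/-!
Pivoting: slicing a set of matrices at `A p p = 1` and clearing part of the row `p`.
-/

namespace Pool.Agent.MP_ef387b_co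

open MvPolynomial Filter

section Dead

variable {τ σ σ' A : Type*} [CommRing A] [Algebra ℂ A]

theorem dead_mem (w' : σ' → τ →₀ ℕ) (g : σ' → A) {a : A} {v : τ →₀ ℕ}
    (h : a = 0 ∨ (v = 0 ∧ a = 1)) : a ∈ gp w' g v := by
  rcases h with rfl | ⟨rfl, rfl⟩
  · exact Submodule.zero_mem _
  · exact one_mem_gp w' g

theorem hs_subtype (w : σ → τ →₀ ℕ) (f : σ → A) (good : σ → Prop)
    (h : ∀ s, ¬ good s → f s = 0 ∨ (w s = 0 ∧ f s = 1)) :
    hs w f = hs (fun s : {s // good s} => w s.1) (fun s => f s.1) := by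
  apply hs_eq_of_gen
  · intro s
    by_cases hs : good s
    · exact gen_mem_gp (fun s : {s // good s} => w s.1) (fun s => f s.1) ⟨s, hs⟩
    · exact dead_mem _ _ (h s hs)
  · intro s
    exact gen_mem_gp w f s.1

theorem hs_cyl' {J : Type*} [Finite σ] [Fintype J] {w : σ → τ →₀ ℕ} {f : σ → A}
    (hw : ∀ s, w s = 0 → f s = 0 ∨ f s = 1) {v : J → τ →₀ ℕ} (hv : ∀ j, v j ≠ 0) :
    hs (Sum.elim w v) (cyl f J) * ∏ j, (1 - MvPowerSeries.monomial (v j) (1 : ℤ)) = hs w f := by
  have hd : ∀ s, ¬ w s ≠ 0 → f s = 0 ∨ (w s = 0 ∧ f s = 1) := by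
    intro s hs
    have hs := not_not.mp hs
    exact (hw s hs).imp id fun h => ⟨hs, h⟩
  rw [hs_subtype w f (fun s => w s ≠ 0) hd, ← hs_cyl (σ := {s // w s ≠ 0}) (w := fun s => w s.1) (fun s => s.2) hv]
  congr 1
  apply hs_eq_of_gen
  · rintro (s | j)
    · by_cases hs : w s ≠ 0
      · exact gen_mem_gp' _ _ (Sum.inl ⟨s, hs⟩) rfl rfl
      · apply dead_mem
        rcases hd s hs with h | ⟨h1, h2⟩
        · left; simp [cyl, h]
        · right; exact ⟨h1, by simp [cyl, h2]⟩
    · exact gen_mem_gp' _ _ (Sum.inr j) rfl rfl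
  · rintro (s | j)
    · exact gen_mem_gp' _ _ (Sum.inl s.1) rfl rfl
    · exact gen_mem_gp' _ _ (Sum.inr j) rfl rfl

theorem lim_slice' {Z : Type*} [Finite σ] (w : σ → τ →₀ ℕ) (f : σ → Z → ℂ) (p : τ) (s0 : σ)
    (hw0 : w s0 = Finsupp.single p 2)
    (hw : ∀ s, s ≠ s0 → (w s).erase p = 0 → f s = 0 ∨ (w s = 0 ∧ f s = 1))
    (hT : ∀ c : ℂ, c ≠ 0 → ∀ x, ∃ x', ∀ s, f s x' = c ^ (w s p) * f s x) :
    Lim p (hs w f * (1 + MvPowerSeries.monomial (Finsupp.single p 1) (1 : ℤ)))
      (hs (fun s => (w s).erase p) (fun s (y : {x // f s0 x = 1}) => f s y.1)) := by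
  let good : σ → Prop := fun s => s = s0 ∨ (w s).erase p ≠ 0
  have hd : ∀ s, ¬ good s → f s = 0 ∨ (w s = 0 ∧ f s = 1) := by
    intro s hs
    simp only [good, not_or, not_not] at hs
    exact hw s hs.1 hs.2
  rw [hs_subtype w f good hd, hs_subtype (fun s => (w s).erase p) _ good (by
    intro s hs
    rcases hd s hs with h | ⟨h1, h2⟩
    · left; funext y; rw [h]; rfl
    · right; exact ⟨by rw [h1]; simp, by funext y; rw [h2]; rfl⟩)]
  exact lim_slice (fun s : {s // good s} => w s.1) (fun s => f s.1) p ⟨s0, Or.inl rfl⟩ hw0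
    (fun s hs => s.2.resolve_left fun h => hs (Subtype.ext h))
    (fun c hc x => (hT c hc x).imp fun x' h s => h s.1)

/-- Polynomials with function coefficients as functions on a product. -/
noncomputable def evp (Z J : Type*) : MvPolynomial J (Z → ℂ) →ₐ[ℂ] (Z × (J → ℂ) → ℂ) :=
  aevalTower (pull Prod.fst) (fun j z => z.2 j)

theorem evp_C {Z J : Type*} (g : Z → ℂ) (z : Z × (J → ℂ)) : evp Z J (C g) z = g z.1 := by
  simp only [evp, aevalTower_C]; rfl

theorem evp_X {Z J : Type*} (j : J) (z : Z × (J → ℂ)) : evp Z J (X j) z = z.2 j := by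
  simp [evp]

theorem evp_injective (Z J : Type*) : Function.Injective (evp Z J) := by
  rw [injective_iff_map_eq_zero]
  intro P hP
  have key : ∀ (P : MvPolynomial J (Z → ℂ)) (x : Z) (y : J → ℂ),
      evp Z J P (x, y) = eval y (map (Pi.evalRingHom (fun _ => ℂ) x) P) := by
    intro P x y
    induction P using MvPolynomial.induction_on with
    | C a => simp [evp_C]
    | add P Q hP hQ => simp [hP, hQ]
    | mul_X P j hP => simp [hP, evp_X]
  ext m x
  have : map (Pi.evalRingHom (fun _ => ℂ) x) P = 0 := by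
    apply MvPolynomial.funext
    intro y
    rw [← key, hP]
    simp
  have := congrArg (coeff m) this
  simpa [coeff_map] using this

/-- The Hilbert series of a product with an affine space. -/
theorem hs_prod {Z J : Type*} [Finite σ] [Fintype J] {w : σ → τ →₀ ℕ} {f : σ → Z → ℂ}
    (hw : ∀ s, w s = 0 → f s = 0 ∨ f s = 1) {v : J → τ →₀ ℕ} (hv : ∀ j, v j ≠ 0) :
    hs (Sum.elim w v) (Sum.elim (fun s (z : Z × (J → ℂ)) => f s z.1) (fun j z => z.2 j)) *
      ∏ j, (1 - MvPowerSeries.monomial (v j) (1 : ℤ)) = hs w f := by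
  rw [← hs_cyl' hw hv, ← hs_map_of_injective (evp Z J) (evp_injective Z J)]
  congr 2
  funext s z
  rcases s with s | j
  · simp [cyl, evp_C]
  · simp [cyl, evp_X]

end Dead

section Pivot

variable {ι τ : Type*} [DecidableEq ι]

/-- The Hilbert series of the entries of the matrices in `S`, where the entry `(a, b)` has weight
`u a + u b`. -/
noncomputable def HM (u : ι → τ →₀ ℕ) (S : Set (Matrix ι ι ℂ)) : MvPowerSeries τ ℤ :=
  hs (fun s : ι × ι => u s.1 + u s.2) (fun s (A : S) => A.1 s.1 s.2)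

/-- Adding multiples of the row and of the column `p`. -/
def cong (p : ι) (y : ι → ℂ) (A : Matrix ι ι ℂ) : Matrix ι ι ℂ :=
  Matrix.of fun a b => A a b + y a * A p b + y b * A a p + y a * y b * A p p

/-- Scaling the row and the column `p`. -/
def scale (p : ι) (c : ℂ) (A : Matrix ι ι ℂ) : Matrix ι ι ℂ :=
  Matrix.of fun a b => (if a = p then c else 1) * (if b = p then c else 1) * A a b

omit [DecidableEq ι] in
theorem cong_cong (p : ι) (y : ι → ℂ) (hy : y p = 0) (A : Matrix ι ι ℂ) :
    cong p (-y) (cong p y A) = A := by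
  ext a b
  simp only [cong, Matrix.of_apply, Pi.neg_apply, hy]
  ring

theorem pivot [Fintype ι] [DecidableEq τ] (u : ι → τ →₀ ℕ) (S : Set (Matrix ι ι ℂ)) (p : ι) (q : τ)
    (J : Finset ι) (hup : u p = Finsupp.single q 1) (hu : ∀ i, i ≠ p → u i q = 0)
    (hpJ : p ∉ J) (hJ : ∀ j ∈ J, u j ≠ 0)
    (hscale : ∀ c : ℂ, c ≠ 0 → ∀ A ∈ S, scale p c A ∈ S)
    (hcong : ∀ y : ι → ℂ, (∀ i ∉ J, y i = 0) → ∀ A ∈ S, cong p y A ∈ S)
    (hdead : ∀ a b, (a, b) ≠ (p, p) → Function.update u p 0 a + Function.update u p 0 b = 0 →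
      (∀ A ∈ S, A a b = 0) ∨ (u a + u b = 0 ∧ ∀ A ∈ S, A a b = 1))
    {K D : MvPolynomial τ ℤ}
    (hK : (K : MvPowerSeries τ ℤ) =
      HM u S * (1 - MvPowerSeries.monomial (Finsupp.single q 2) (1 : ℤ)) * D) :
    ((sp q K : MvPolynomial τ ℤ) : MvPowerSeries τ ℤ) *
        ∏ j ∈ J, (1 - MvPowerSeries.monomial (u j) (1 : ℤ)) =
      HM (Function.update u p 0) {A | A ∈ S ∧ A p p = 1 ∧ ∀ j ∈ J, A p j = 0} *
        (sp q D : MvPolynomial τ ℤ) := by
  set u' := Function.update u p 0 with hu'
  set S' : Set (Matrix ι ι ℂ) := {A | A ∈ S ∧ A p p = 1 ∧ ∀ j ∈ J, A p j = 0} with hS'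
  have hue : ∀ i, (u i).erase q = u' i := by
    intro i
    by_cases hi : i = p
    · subst hi; simp [hu', hup]
    · rw [hu', Function.update_of_ne hi,
        Finsupp.erase_of_notMem_support (by simpa using hu i hi)]
  have huJ : ∀ j ∈ J, u' j = u j := fun j hj =>
    Function.update_of_ne (by rintro rfl; exact hpJ hj) _ _
  have hu'p : u' p = 0 := Function.update_self _ _ _
  have hlim := lim_slice' (fun s : ι × ι => u s.1 + u s.2) (fun s (A : S) => A.1 s.1 s.2) q (p, p)
    (by simp [hup, ← Finsupp.single_add]) (by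
      rintro ⟨a, b⟩ hs h0
      rw [Finsupp.erase_add, hue, hue] at h0
      rcases hdead a b hs h0 with h | ⟨h1, h2⟩
      · left; funext A; exact h A.1 A.2
      · right; exact ⟨h1, funext fun A => h2 A.1 A.2⟩) (by
      intro c hc A
      refine ⟨⟨scale p c A.1, hscale c hc A.1 A.2⟩, ?_⟩
      rintro ⟨a, b⟩
      simp only [scale, Matrix.of_apply, Finsupp.add_apply, pow_add]
      congr 2
      · split_ifs with h
        · subst h; simp [hup]
        · simp [hu a h]
      · split_ifs with h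
        · subst h; simp [hup]
        · simp [hu b h])
  rw [sp_eq_of_lim hlim hK, mul_right_comm]
  congr 1
  have hprod := hs_prod (Z := S') (J := J) (w := fun s : ι × ι => u' s.1 + u' s.2)
    (f := fun s (A : S') => A.1 s.1 s.2) (by
      rintro ⟨a, b⟩ h0
      by_cases hs : (a, b) = (p, p)
      · right
        obtain ⟨rfl, rfl⟩ := Prod.mk.inj hs
        exact funext fun A => A.2.2.1
      · rcases hdead a b hs h0 with h | ⟨-, h2⟩
        · left; funext A; exact h A.1 A.2.1
        · right; exact funext fun A => h2 A.1 A.2.1)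
    (v := fun j : J => u j) (fun j => hJ j.1 j.2)
  rw [HM, ← hprod, ← Finset.prod_coe_sort J]
  congr 1
  -- the parametrisation of the slice
  let yt : (J → ℂ) → ι → ℂ := fun y i => if h : i ∈ J then y ⟨i, h⟩ else 0
  have hyt : ∀ y, ∀ i ∉ J, yt y i = 0 := fun y i hi => dif_neg hi
  have hytp : ∀ y, yt y p = 0 := fun y => hyt y p hpJ
  let e : S' × (J → ℂ) → {A : S // A.1 p p = 1} := fun z =>
    ⟨⟨cong p (yt z.2) z.1.1, hcong _ (hyt z.2) _ z.1.2.1⟩, by
      simp [cong, hytp, z.1.2.2.1]⟩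
  have he : Function.Surjective e := by
    rintro ⟨⟨A, hA⟩, hA1⟩
    let y : J → ℂ := fun j => A p j
    have hA1' : A p p = 1 := hA1
    refine ⟨(⟨cong p (-yt y) A, hcong _ (fun i hi => by simp [hyt y i hi]) _ hA, ?_, ?_⟩, y), ?_⟩
    · simp [cong, hytp, hA1']
    · intro j hj
      simp [cong, hA1', yt, hj, y, hpJ]
    · apply Subtype.ext
      apply Subtype.ext
      have := cong_cong p (-yt y) (by simp [hytp]) A
      rw [neg_neg] at this
      exact this
  rw [← hs_map_of_injective (pull e) (pull_injective he)]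
  simp only [Finsupp.erase_add, hue]
  set g : (ι × ι) ⊕ J → S' × (J → ℂ) → ℂ :=
    Sum.elim (fun s (z : S' × (J → ℂ)) => z.1.1 s.1 s.2) (fun j z => z.2 j) with hg
  set F : ι × ι → S' × (J → ℂ) → ℂ := fun s z => cong p (yt z.2) z.1.1 s.1 s.2 with hF
  change hs (fun s : ι × ι => u' s.1 + u' s.2) F = hs _ g
  have hFp : ∀ i, ∀ hi : i ∈ J, F (p, i) = g (Sum.inr ⟨i, hi⟩) := by
    intro i hi
    funext z
    simp [hF, hg, cong, z.1.2.2.1, z.1.2.2.2 i hi, yt, hi, hpJ]
  apply hs_eq_of_gen
  · rintro ⟨a, b⟩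
    have hy : ∀ i, (fun z : S' × (J → ℂ) => yt z.2 i) ∈
        gp (Sum.elim (fun s : ι × ι => u' s.1 + u' s.2) (fun j : J => u j)) g (u' i) := by
      intro i
      by_cases hi : i ∈ J
      · exact gen_mem_gp' _ _ (Sum.inr ⟨i, hi⟩) (by funext z; simp [yt, hi, hg]) (by simpa using huJ i hi)
      · have : (fun z : S' × (J → ℂ) => yt z.2 i) = 0 := funext fun z => hyt _ i hi
        rw [this]; exact Submodule.zero_mem _
    have hent : ∀ a b, g (Sum.inl (a, b)) ∈
        gp (Sum.elim (fun s : ι × ι => u' s.1 + u' s.2) (fun j : J => u j)) g (u' a + u' b) :=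
      fun a b => gen_mem_gp' _ _ (Sum.inl (a, b)) rfl rfl
    have : F (a, b) = g (Sum.inl (a, b)) + (fun z => yt z.2 a) * g (Sum.inl (p, b)) +
        (fun z => yt z.2 b) * g (Sum.inl (a, p)) +
        (fun z => yt z.2 a) * (fun z => yt z.2 b) * g (Sum.inl (p, p)) := by
      funext z; simp [hF, hg, cong]
    rw [this]
    refine Submodule.add_mem _ (Submodule.add_mem _ (Submodule.add_mem _ (hent a b) ?_) ?_) ?_
    · exact mul_mem_gp' (hy a) (hent p b) (by simp [hu'p])
    · exact mul_mem_gp' (hy b) (hent a p) (by simp [hu'p, add_comm])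
    · exact mul_mem_gp' (mul_mem_gp (hy a) (hy b)) (hent p p) (by simp [hu'p])
  · have hent : ∀ a b, F (a, b) ∈ gp (fun s : ι × ι => u' s.1 + u' s.2) F (u' a + u' b) :=
      fun a b => gen_mem_gp' _ _ (a, b) rfl rfl
    have hy : ∀ i, (fun z : S' × (J → ℂ) => yt z.2 i) ∈
        gp (fun s : ι × ι => u' s.1 + u' s.2) F (u' i) := by
      intro i
      by_cases hi : i ∈ J
      · refine gen_mem_gp' _ _ (p, i) ?_ (by simp [hu'p])
        rw [hFp i hi]; funext z; simp [yt, hi, hg]
      · have : (fun z : S' × (J → ℂ) => yt z.2 i) = 0 := funext fun z => hyt _ i hi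
        rw [this]; exact Submodule.zero_mem _
    rintro (⟨a, b⟩ | j)
    · have : g (Sum.inl (a, b)) = F (a, b) - (fun z => yt z.2 a) * F (p, b) -
          (fun z => yt z.2 b) * F (a, p) +
          (fun z => yt z.2 a) * (fun z => yt z.2 b) * F (p, p) := by
        funext z
        simp only [hF, hg, cong, Matrix.of_apply, Sum.elim_inl, Pi.add_apply, Pi.sub_apply,
          Pi.mul_apply, hytp]
        ring
      rw [this]
      refine Submodule.add_mem _ (Submodule.sub_mem _ (Submodule.sub_mem _ (hent a b) ?_) ?_) ?_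
      · exact mul_mem_gp' (hy a) (hent p b) (by simp [hu'p])
      · exact mul_mem_gp' (hy b) (hent a p) (by simp [hu'p, add_comm])
      · exact mul_mem_gp' (mul_mem_gp (hy a) (hy b)) (hent p p) (by simp [hu'p])
    · rw [← hFp j.1 j.2]
      exact gen_mem_gp' _ _ (p, j.1) rfl (by simp [hu'p, huJ j.1 j.2])

end Pivot

end Pool.Agent.MP_ef387b_co

end

section

/-!
Rank lemmas for corner submatrices.
-/

namespace Pool.Agent.MP_ef387b_co

open Matrix Submodule

section General

variable {m m' n n' : Type*}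

theorem rank_le_of_rows [Finite m] [Finite m'] [Fintype n] (M : Matrix m n ℂ) (M' : Matrix m' n ℂ)
    (h : ∀ a, M'.row a ∈ span ℂ (Set.range M.row)) : M'.rank ≤ M.rank := by
  rw [rank_eq_finrank_span_row, rank_eq_finrank_span_row]
  apply Submodule.finrank_mono
  rw [span_le]
  rintro _ ⟨a, rfl⟩
  exact h a

theorem rank_toBlock_transpose [Fintype m] [Fintype n] (M : Matrix m n ℂ) (P : m → Prop)
    (Q : n → Prop) [DecidablePred P] [DecidablePred Q] :
    (Mᵀ.toBlock Q P).rank = (M.toBlock P Q).rank :=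
  rank_transpose (M.toBlock P Q)

theorem rank_rowop [Finite m] [Fintype n] (M : Matrix m n ℂ) (P : m → Prop) (Q : n → Prop)
    [DecidablePred Q] (p : m) (y : m → ℂ) (h : ∀ a, P a → y a ≠ 0 → P p) :
    ((Matrix.of fun a b => M a b + y a * M p b).toBlock P Q).rank ≤ (M.toBlock P Q).rank := by
  apply rank_le_of_rows
  intro a
  by_cases hy : y a.1 = 0
  · refine subset_span ⟨a, ?_⟩
    funext b
    simp [hy]
  · have : ((Matrix.of fun a b => M a b + y a * M p b).toBlock P Q).row a =
        (M.toBlock P Q).row a + y a.1 • (M.toBlock P Q).row ⟨p, h a.1 a.2 hy⟩ := by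
      funext b
      simp
    rw [this]
    exact add_mem (subset_span ⟨a, rfl⟩) (smul_mem _ _ (subset_span ⟨_, rfl⟩))

theorem rank_rowscale [Finite m] [Fintype n] (M : Matrix m n ℂ) (P : m → Prop) (Q : n → Prop)
    [DecidablePred Q] (t : m → ℂ) :
    ((Matrix.of fun a b => t a * M a b).toBlock P Q).rank ≤ (M.toBlock P Q).rank := by
  apply rank_le_of_rows
  intro a
  have : ((Matrix.of fun a b => t a * M a b).toBlock P Q).row a =
      t a.1 • (M.toBlock P Q).row a := by
    funext b
    simp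
  rw [this]
  exact smul_mem _ _ (subset_span ⟨_, rfl⟩)

theorem rank_cong_le [Fintype m] (A : Matrix m m ℂ) (P Q : m → Prop) [DecidablePred P]
    [DecidablePred Q] (p : m) (y : m → ℂ) (hP : ∀ a, P a → y a ≠ 0 → P p)
    (hQ : ∀ a, Q a → y a ≠ 0 → Q p) :
    ((cong p y A).toBlock P Q).rank ≤ (A.toBlock P Q).rank := by
  refine le_trans ?_ (rank_rowop A P Q p y hP)
  rw [← rank_toBlock_transpose, ← rank_toBlock_transpose (Matrix.of _)]
  refine le_trans (le_of_eq ?_) (rank_rowop _ Q P p y hQ)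
  congr 2
  ext a b
  simp only [cong, transpose_apply, of_apply]
  ring

theorem rank_diag_le [Fintype m] (A : Matrix m m ℂ) (P Q : m → Prop) [DecidablePred P]
    [DecidablePred Q] (t : m → ℂ) :
    ((Matrix.of fun a b => t a * t b * A a b).toBlock P Q).rank ≤ (A.toBlock P Q).rank := by
  refine le_trans ?_ (rank_rowscale A P Q t)
  rw [← rank_toBlock_transpose, ← rank_toBlock_transpose (Matrix.of fun a b => t a * A a b)]
  refine le_trans (le_of_eq ?_) (rank_rowscale _ Q P t)
  congr 2
  ext a b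
  simp only [transpose_apply, of_apply]
  ring

theorem rank_eq_succ [Finite m] [Finite m'] [Fintype n] [Fintype n'] (M : Matrix m n ℂ) (p : m)
    (q : n) (e : m' → m) (e' : n' → n) (he : ∀ a, a = p ∨ ∃ a', e a' = a)
    (he' : ∀ b, b = q ∨ ∃ b', e' b' = b) (h1 : M p q = 1) (hrow : ∀ b', M p (e' b') = 0)
    (hcol : ∀ a', M (e a') q = 0) : M.rank = (M.submatrix e e').rank + 1 := by
  let W : Submodule ℂ (n → ℂ) := span ℂ (Set.range fun a' => M.row (e a'))
  have hW : ∀ v ∈ W, v q = 0 := by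
    have : W ≤ LinearMap.ker (LinearMap.proj q : (n → ℂ) →ₗ[ℂ] ℂ) := by
      rw [span_le]
      rintro _ ⟨a', rfl⟩
      exact hcol a'
    exact fun v hv => this hv
  have h2 : span ℂ (Set.range M.row) = W ⊔ span ℂ {M.row p} := by
    apply le_antisymm
    · rw [span_le]
      rintro _ ⟨a, rfl⟩
      rcases he a with rfl | ⟨a', rfl⟩
      · exact mem_sup_right (subset_span rfl)
      · exact mem_sup_left (subset_span ⟨a', rfl⟩)
    · refine sup_le (span_mono ?_) (span_mono ?_)
      · rintro _ ⟨a', rfl⟩; exact ⟨_, rfl⟩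
      · rintro _ rfl; exact ⟨_, rfl⟩
  have h3 : M.row p ∉ W := fun h => by
    have := hW _ h
    rw [Matrix.row_apply, h1] at this
    exact one_ne_zero this
  rw [rank_eq_finrank_span_row, rank_eq_finrank_span_row, h2, finrank_sup_span_singleton h3,
    ← finrank_map_of_injOn (LinearMap.funLeft ℂ ℂ e') W, map_span, ← Set.range_comp]
  · rfl
  · intro v hv h0
    funext b
    rcases he' b with rfl | ⟨b', rfl⟩
    · exact hW v hv
    · exact congrFun h0 b'

theorem card_le_rank [Fintype n] {κ : Type*} [Fintype κ] [DecidableEq κ] (M : Matrix m n ℂ)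
    (r : κ → m) (c : κ → n) (h : ∀ i j, M (r i) (c j) = if i = j then 1 else 0) :
    Fintype.card κ ≤ M.rank := by
  have : M.submatrix r c = 1 := by
    ext i j
    rw [submatrix_apply, h, one_apply]
  rw [← rank_one (R := ℂ), ← this]
  exact rank_submatrix_le _ _ _

theorem schur_of_rank_le [Fintype n] {κ : Type*} [Fintype κ] [DecidableEq κ] (M : Matrix m n ℂ)
    (r : κ → m) (c : κ → n) (h : ∀ i j, M (r i) (c j) = if i = j then 1 else 0)
    (hr : M.rank ≤ Fintype.card κ) (a : m) (b : n) : M a b = ∑ k, M a (c k) * M (r k) b := by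
  by_contra hne
  have h1 : M.submatrix (Sum.elim (fun _ : Unit => a) r) (Sum.elim (fun _ : Unit => b) c) =
      fromBlocks (Matrix.of fun _ _ => M a b) (Matrix.of fun _ k => M a (c k))
        (Matrix.of fun k _ => M (r k) b) 1 := by
    ext (i | i) (j | j) <;> simp [h, one_apply]
  have h2 : (M.submatrix (Sum.elim (fun _ : Unit => a) r)
      (Sum.elim (fun _ : Unit => b) c)).det ≠ 0 := by
    rw [h1, det_fromBlocks_one₂₂, det_unique]
    simpa [mul_apply, sub_eq_zero] using hne
  have h3 := rank_of_det_ne_zero h2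
  have h4 := rank_submatrix_le M (Sum.elim (fun _ : Unit => a) r) (Sum.elim (fun _ : Unit => b) c)
  rw [h3, Fintype.card_sum, Fintype.card_unit] at h4
  omega

theorem rank_toBlock_le_of_sum [Fintype n] (M : Matrix m n ℂ) (P : m → Prop) (Q : n → Prop)
    [DecidablePred Q] {s : ℕ} (β : Fin s → m → ℂ) (γ : Fin s → n → ℂ)
    (h : ∀ a b, P a → Q b → M a b = ∑ k, β k a * γ k b) : (M.toBlock P Q).rank ≤ s := by
  have : M.toBlock P Q = (Matrix.of fun (a : {a // P a}) k => β k a.1) *
      (Matrix.of fun k (b : {b // Q b}) => γ k b.1) := by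
    ext a b
    simp [mul_apply, h a.1 b.1 a.2 b.2]
  rw [this]
  exact (rank_mul_le_left _ _).trans ((rank_le_card_width _).trans (by simp))

theorem rank_toBlock_le_add [Fintype m] [Fintype n] (M : Matrix m n ℂ) (P P0 : m → Prop)
    (Q : n → Prop) [DecidablePred P] [DecidablePred P0] [DecidablePred Q] :
    (M.toBlock P Q).rank ≤
      (M.toBlock P0 Q).rank + (Finset.univ.filter fun a => P a ∧ ¬ P0 a).card := by
  have h1 := rank_le_card_height (M.toBlock (fun a => P a ∧ ¬ P0 a) Q)
  rw [Fintype.card_subtype] at h1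
  refine le_trans ?_ (Nat.add_le_add_left h1 _)
  rw [rank_eq_finrank_span_row, rank_eq_finrank_span_row, rank_eq_finrank_span_row]
  refine le_trans (Submodule.finrank_mono ?_) (finrank_add_le_finrank_add_finrank _ _)
  rw [span_le]
  rintro _ ⟨a, rfl⟩
  by_cases h : P0 a.1
  · exact mem_sup_left (subset_span ⟨⟨a.1, h⟩, rfl⟩)
  · exact mem_sup_right (subset_span ⟨⟨a.1, a.2, h⟩, rfl⟩)

end General

section Corner

variable {N : ℕ}

theorem permMatrix_apply (z : Equiv.Perm (Fin N)) (a b : Fin N) :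
    z.permMatrix ℂ a b = if z a = b then 1 else 0 := by
  simp [Equiv.Perm.permMatrix, PEquiv.toMatrix_apply, eq_comm]

theorem cornerRank_perm (z : Equiv.Perm (Fin N)) (i j : Fin N) :
    cornerRank (z.permMatrix ℂ) i j = (Finset.univ.filter fun a => a ≤ i ∧ z a ≤ j).card := by
  apply le_antisymm
  · have h := rank_toBlock_le_add (z.permMatrix ℂ) (fun a => a ≤ i) (fun a => ¬ z a ≤ j)
      (fun b => b ≤ j)
    have h0 : (z.permMatrix ℂ).toBlock (fun a => ¬ z a ≤ j) (fun b => b ≤ j) = 0 := by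
      ext a b
      rw [toBlock_apply, permMatrix_apply, if_neg, Matrix.zero_apply]
      intro h
      exact a.2 (h ▸ b.2)
    rw [h0, rank_zero, zero_add] at h
    simpa [cornerRank] using h
  · rw [← Fintype.card_subtype]
    refine card_le_rank _ (fun a => ⟨a.1, a.2.1⟩) (fun a => ⟨z a.1, a.2.2⟩) ?_
    intro a b
    simp [Subtype.ext_iff]

theorem cornerRank_le_left (A : Matrix (Fin N) (Fin N) ℂ) (i j : Fin N) :
    cornerRank A i j ≤ (Finset.univ.filter fun a => a ≤ i).card := by
  rw [← Fintype.card_subtype]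
  exact rank_le_card_height _

theorem cornerRank_le_right (A : Matrix (Fin N) (Fin N) ℂ) (i j : Fin N) :
    cornerRank A i j ≤ (Finset.univ.filter fun a => a ≤ j).card := by
  rw [← Fintype.card_subtype]
  exact rank_le_card_width _

theorem cornerRank_trivial (z : Equiv.Perm (Fin N)) (A : Matrix (Fin N) (Fin N) ℂ) (i j : Fin N)
    (h : ∀ a, a ≤ i → a ≤ j → z a = a) : cornerRank A i j ≤ cornerRank (z.permMatrix ℂ) i j := by
  rw [cornerRank_perm]
  rcases le_total i j with hij | hij
  · refine (cornerRank_le_left A i j).trans (Finset.card_le_card fun a ha => ?_)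
    simp only [Finset.mem_filter, Finset.mem_univ, true_and] at ha ⊢
    exact ⟨ha, by rw [h a ha (ha.trans hij)]; exact ha.trans hij⟩
  · refine (cornerRank_le_right A i j).trans (Finset.card_le_card fun a ha => ?_)
    simp only [Finset.mem_filter, Finset.mem_univ, true_and] at ha ⊢
    exact ⟨ha.trans hij, by rw [h a (ha.trans hij) ha]; exact ha⟩

theorem cornerRank_le_add (A : Matrix (Fin N) (Fin N) ℂ) (i j i0 j0 : Fin N) :
    cornerRank A i j ≤ cornerRank A i0 j0 + (Finset.univ.filter fun a => a ≤ i ∧ ¬ a ≤ i0).card +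
      (Finset.univ.filter fun a => a ≤ j ∧ ¬ a ≤ j0).card := by
  have h1 := rank_toBlock_le_add A (fun a => a ≤ i) (fun a => a ≤ i0) (fun b => b ≤ j)
  have h2 := rank_toBlock_le_add Aᵀ (fun a => a ≤ j) (fun a => a ≤ j0) (fun b => b ≤ i0)
  rw [rank_toBlock_transpose, rank_toBlock_transpose] at h2
  simp only [cornerRank]
  omega

theorem cong_isSymm {ι : Type*} {A : Matrix ι ι ℂ} (hA : A.IsSymm) (p : ι) (y : ι → ℂ) :
    (cong p y A).IsSymm := by
  ext a b
  simp only [cong, transpose_apply, of_apply]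
  rw [hA.apply a b, hA.apply p b, hA.apply a p]
  ring

theorem diag_mem_MX {z : Equiv.Perm (Fin N)} {A : Matrix (Fin N) (Fin N) ℂ} (hA : A ∈ MX z)
    (t : Fin N → ℂ) : (Matrix.of fun a b => t a * t b * A a b) ∈ MX z := by
  refine ⟨?_, fun i j => (rank_diag_le A _ _ t).trans (hA.2 i j)⟩
  ext a b
  simp only [transpose_apply, of_apply]
  rw [hA.1.apply a b]
  ring

theorem scale_mem_MX {z : Equiv.Perm (Fin N)} {A : Matrix (Fin N) (Fin N) ℂ} (hA : A ∈ MX z)
    (p : Fin N) (c : ℂ) : scale p c A ∈ MX z :=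
  diag_mem_MX hA fun a => if a = p then c else 1

theorem cong_mem_MX {z : Equiv.Perm (Fin N)} {A : Matrix (Fin N) (Fin N) ℂ} (hA : A ∈ MX z)
    (p : Fin N) (y : Fin N → ℂ) (hy : ∀ a, y a ≠ 0 → p ≤ a) : cong p y A ∈ MX z :=
  ⟨cong_isSymm hA.1 p y, fun i j => (rank_cong_le A (fun a => a ≤ i) (fun a => a ≤ j) p y
    (fun a ha h => (hy a h).trans ha) (fun a ha h => (hy a h).trans ha)).trans (hA.2 i j)⟩

theorem cong_mem_MX' {z : Equiv.Perm (Fin N)} {A : Matrix (Fin N) (Fin N) ℂ} (hA : A ∈ MX z)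
    (p : Fin N) (hz : ∀ a ≤ p, z a = a) (y : Fin N → ℂ) : cong p y A ∈ MX z := by
  refine ⟨cong_isSymm hA.1 p y, fun i j => ?_⟩
  by_cases h : p ≤ i ∧ p ≤ j
  · exact (rank_cong_le A _ _ p y (fun _ _ _ => h.1) (fun _ _ _ => h.2)).trans (hA.2 i j)
  · refine cornerRank_trivial z _ i j fun a hi hj => hz a ?_
    by_contra hlt
    exact h ⟨(not_le.mp hlt).le.trans hi, (not_le.mp hlt).le.trans hj⟩

theorem zero_mem_MX (z : Equiv.Perm (Fin N)) : (0 : Matrix (Fin N) (Fin N) ℂ) ∈ MX z := by
  refine ⟨isSymm_zero, fun i j => ?_⟩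
  have : (0 : Matrix (Fin N) (Fin N) ℂ).toBlock (fun a => a ≤ i) (fun b => b ≤ j) = 0 := rfl
  rw [cornerRank, this, rank_zero]
  exact Nat.zero_le _

end Corner

section Step

variable {N N' : ℕ}

/-- `z'` arises from `z` by inserting a fixed point `p` that has only fixed points below it. -/
structure Ins (z : Equiv.Perm (Fin N)) (z' : Equiv.Perm (Fin N')) (p : Fin N')
    (e : Fin N → Fin N') : Prop where
  mono : StrictMono e
  ne : ∀ a, e a ≠ p
  cover : ∀ b, b = p ∨ ∃ a, e a = b
  fix : ∀ b ≤ p, z' b = b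
  comm : ∀ a, z' (e a) = e (z a)

theorem cornerRank_step {p : Fin N'} {e : Fin N → Fin N'} (hm : StrictMono e)
    (hc : ∀ b, b = p ∨ ∃ a, e a = b) (A : Matrix (Fin N') (Fin N') ℂ) (h1 : A p p = 1)
    (hrow : ∀ a, A p (e a) = 0) (hcol : ∀ a, A (e a) p = 0) (i j : Fin N) (hi : p ≤ e i)
    (hj : p ≤ e j) : cornerRank A (e i) (e j) = cornerRank (A.submatrix e e) i j + 1 := by
  have hcov : ∀ (i : Fin N) (hi : p ≤ e i) (b : {b // b ≤ e i}), b = ⟨p, hi⟩ ∨
      ∃ a : {a // a ≤ i}, (⟨e a.1, hm.monotone a.2⟩ : {b // b ≤ e i}) = b := by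
    intro i hi b
    rcases hc b.1 with h | ⟨a, ha⟩
    · left; exact Subtype.ext h
    · right
      exact ⟨⟨a, hm.le_iff_le.mp (ha ▸ b.2)⟩, Subtype.ext ha⟩
  exact rank_eq_succ (A.toBlock (fun a => a ≤ e i) (fun b => b ≤ e j)) ⟨p, hi⟩ ⟨p, hj⟩
    (fun a : {a // a ≤ i} => ⟨e a.1, hm.monotone a.2⟩)
    (fun a : {a // a ≤ j} => ⟨e a.1, hm.monotone a.2⟩) (hcov i hi) (hcov j hj) h1
    (fun b => hrow b.1) (fun a => hcol a.1)

theorem Ins.mem_iff {z : Equiv.Perm (Fin N)} {z' : Equiv.Perm (Fin N')} {p : Fin N'}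
    {e : Fin N → Fin N'} (h : Ins z z' p e) {A : Matrix (Fin N') (Fin N') ℂ} (hA : A.IsSymm)
    (h1 : A p p = 1) (hrow : ∀ a, A p (e a) = 0) : A ∈ MX z' ↔ A.submatrix e e ∈ MX z := by
  have hcol : ∀ a, A (e a) p = 0 := fun a => by rw [hA.apply p (e a)]; exact hrow a
  have hperm : (z'.permMatrix ℂ).submatrix e e = z.permMatrix ℂ := by
    ext a b
    simp [h.comm, h.mono.injective.eq_iff]
  have key : ∀ i j, p ≤ e i → p ≤ e j →
      (cornerRank A (e i) (e j) ≤ cornerRank (z'.permMatrix ℂ) (e i) (e j) ↔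
        cornerRank (A.submatrix e e) i j ≤ cornerRank (z.permMatrix ℂ) i j) := by
    intro i j hi hj
    rw [cornerRank_step h.mono h.cover A h1 hrow hcol i j hi hj,
      cornerRank_step h.mono h.cover (z'.permMatrix ℂ) (by simp [h.fix p le_rfl])
        (fun a => by simp [h.fix p le_rfl, (h.ne a).symm])
        (fun a => by simp [h.comm, h.ne]) i j hi hj, hperm]
    exact Nat.add_le_add_iff_right
  constructor
  · intro hX
    refine ⟨hA.submatrix e, fun i j => ?_⟩
    by_cases hp : p ≤ e i ∧ p ≤ e j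
    · exact (key i j hp.1 hp.2).mp (hX.2 _ _)
    · refine cornerRank_trivial z _ i j fun a hi hj => h.mono.injective ?_
      rw [← h.comm]
      apply h.fix
      by_contra hlt
      exact hp ⟨(not_le.mp hlt).le.trans (h.mono.monotone hi),
        (not_le.mp hlt).le.trans (h.mono.monotone hj)⟩
  · intro hX
    refine ⟨hA, fun i j => ?_⟩
    by_cases hp : p < i ∧ p < j
    · obtain ⟨i', rfl⟩ := (h.cover i).resolve_left hp.1.ne'
      obtain ⟨j', rfl⟩ := (h.cover j).resolve_left hp.2.ne'
      exact (key i' j' hp.1.le hp.2.le).mpr (hX.2 _ _)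
    · refine cornerRank_trivial z' _ i j fun a hi hj => h.fix a ?_
      by_contra hlt
      exact hp ⟨(not_le.mp hlt).trans_le hi, (not_le.mp hlt).trans_le hj⟩

end Step

end Pool.Agent.MP_ef387b_co

end

section

/-!
The coordinate ring of `MX z`: Hilbert series, homogeneity, existence and uniqueness of the
orthogonal Grothendieck polynomial.
-/

namespace Pool.Agent.MP_ef387b_co

open MvPolynomial

variable {N : ℕ}

theorem mem_idealMX {z : Equiv.Perm (Fin N)} {f : MvPolynomial (Pos N) ℂ} :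
    f ∈ idealMX z ↔ ∀ A ∈ MX z, aeval (fun p : Pos N => A p.1.1 p.1.2) f = 0 := by
  simp [idealMX, mem_vanishingIdeal_iff]

theorem aeval_pi_apply {σ Z : Type*} (f : σ → Z → ℂ) (P : MvPolynomial σ ℂ) (x : Z) :
    aeval f P x = aeval (fun s => f s x) P := by
  induction P using MvPolynomial.induction_on with
  | C a => simp
  | add P Q hP hQ => simp [hP, hQ]
  | mul_X P s hP => simp [hP]

/-- Elements of the coordinate ring as functions. -/
noncomputable def evI (z : Equiv.Perm (Fin N)) :
    (MvPolynomial (Pos N) ℂ ⧸ idealMX z) →ₐ[ℂ] (MX z → ℂ) :=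
  Ideal.Quotient.liftₐ (idealMX z) (aeval fun (s : Pos N) (A : MX z) => A.1 s.1.1 s.1.2) (by
    intro f hf
    funext A
    rw [aeval_pi_apply]
    exact mem_idealMX.mp hf A.1 A.2)

theorem evI_mk (z : Equiv.Perm (Fin N)) (f : MvPolynomial (Pos N) ℂ) (A : MX z) :
    evI z (Ideal.Quotient.mk _ f) A = aeval (fun p : Pos N => A.1 p.1.1 p.1.2) f := by
  rw [← aeval_pi_apply (fun (s : Pos N) (A : MX z) => A.1 s.1.1 s.1.2)]
  rfl

theorem evI_injective (z : Equiv.Perm (Fin N)) : Function.Injective (evI z) := by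
  rw [injective_iff_map_eq_zero]
  intro g hg
  obtain ⟨f, rfl⟩ := Ideal.Quotient.mk_surjective g
  rw [Ideal.Quotient.eq_zero_iff_mem, mem_idealMX]
  intro A hA
  rw [← evI_mk z f ⟨A, hA⟩, hg]
  rfl

theorem hilb_eq (I : Ideal (MvPolynomial (Pos N) ℂ)) :
    hilb I = hs (wt N) (fun s => Ideal.Quotient.mkₐ ℂ I (X s)) := by
  have : aeval (fun t => Ideal.Quotient.mkₐ ℂ I (X t)) = Ideal.Quotient.mkₐ ℂ I := by
    ext t; simp
  funext μ
  unfold hilb pieceDim hs gp
  rw [this]

/-- The standard weights of the indices. -/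
noncomputable def u0 (N : ℕ) : Fin N → Fin N →₀ ℕ := fun i => Finsupp.single i 1

theorem hilb_idealMX (z : Equiv.Perm (Fin N)) : hilb (idealMX z) = HM (u0 N) (MX z) := by
  rw [hilb_eq, ← hs_map_of_injective (evI z) (evI_injective z), HM]
  have h1 : (fun s : Pos N => evI z (Ideal.Quotient.mkₐ ℂ (idealMX z) (X s))) =
      fun (s : Pos N) (A : MX z) => A.1 s.1.1 s.1.2 := by
    funext s A
    exact (evI_mk z (X s) A).trans (by simp)
  rw [h1]
  apply hs_eq_of_gen
  · intro s
    exact gen_mem_gp' _ _ s.1 rfl rfl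
  · rintro ⟨a, b⟩
    rcases le_total a b with h | h
    · exact gen_mem_gp' _ _ (⟨(a, b), h⟩ : Pos N) rfl rfl
    · exact gen_mem_gp' _ _ (⟨(b, a), h⟩ : Pos N) (funext fun A => A.2.1.apply b a)
        (add_comm _ _)

theorem hilb_bot_mul :
    hilb (⊥ : Ideal (MvPolynomial (Pos N) ℂ)) *
      ∏ s : Pos N, (1 - MvPowerSeries.monomial (wt N s) (1 : ℤ)) = 1 := by
  rw [hilb_eq, hs_map_of_injective (Ideal.Quotient.mkₐ ℂ ⊥)]
  · apply hs_X
    intro s h
    have := DFunLike.congr_fun h s.1.1
    simp [wt] at this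
  · rw [injective_iff_map_eq_zero]
    intro f hf
    simpa using Ideal.Quotient.eq_zero_iff_mem.mp hf

theorem wt_ne_zero (s : Pos N) : wt N s ≠ 0 := by
  intro h
  have := DFunLike.congr_fun h s.1.1
  simp [wt] at this

theorem prod_Pos {M : Type*} [CommMonoid M] (F : Fin N → Fin N → M) :
    ∏ s : Pos N, F s.1.1 s.1.2 = ∏ a, ∏ b ∈ Finset.Ici a, F a b := by
  rw [← Finset.prod_subtype (Finset.univ.filter fun p : Fin N × Fin N => p.1 ≤ p.2) (by simp)
    (fun p : Fin N × Fin N => F p.1 p.2), Finset.prod_filter, Fintype.prod_prod_type]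
  refine Finset.prod_congr rfl fun a _ => ?_
  rw [← Finset.prod_filter]
  congr 1
  ext b
  simp

/-- The denominator of the Hilbert series of the space of symmetric matrices. -/
noncomputable def DP {τ : Type*} (u : Fin N → τ →₀ ℕ) : MvPolynomial τ ℤ :=
  ∏ a, ∏ b ∈ Finset.Ici a, (1 - monomial (u a + u b) 1)

/-- `K` is the `K`-polynomial of `S` for the index weights `u`. -/
def IsKu {τ : Type*} (u : Fin N → τ →₀ ℕ) (S : Set (Matrix (Fin N) (Fin N) ℂ))
    (K : MvPolynomial τ ℤ) : Prop :=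
  (K : MvPowerSeries τ ℤ) = HM u S * (DP u : MvPolynomial τ ℤ)

theorem coe_DP_u0 : ((DP (u0 N) : MvPolynomial (Fin N) ℤ) : MvPowerSeries (Fin N) ℤ) =
    ∏ s : Pos N, (1 - MvPowerSeries.monomial (wt N s) (1 : ℤ)) := by
  rw [DP, ← prod_Pos (fun a b => (1 - monomial (u0 N a + u0 N b) 1 : MvPolynomial (Fin N) ℤ)),
    coe_prod']
  exact Finset.prod_congr rfl fun s _ => coe_one_sub_monomial _

theorem isK_iff (z : Equiv.Perm (Fin N)) (K : MvPolynomial (Fin N) ℤ) :
    (K : MvPowerSeries (Fin N) ℤ) * hilb ⊥ = hilb (idealMX z) ↔ IsKu (u0 N) (MX z) K := by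
  rw [IsKu, coe_DP_u0, ← hilb_idealMX]
  constructor
  · intro h
    rw [← h, mul_assoc, hilb_bot_mul, mul_one]
  · intro h
    rw [h, mul_assoc, mul_comm _ (hilb ⊥), hilb_bot_mul, mul_one]

theorem IsKu.unique {τ : Type*} {u : Fin N → τ →₀ ℕ} {S : Set (Matrix (Fin N) (Fin N) ℂ)}
    {K K' : MvPolynomial τ ℤ} (h : IsKu u S K) (h' : IsKu u S K') : K = K' :=
  coe_injective τ ℤ (h.trans h'.symm)

theorem IsKu.rename {τ τ' : Type*} {u : Fin N → τ →₀ ℕ} {S : Set (Matrix (Fin N) (Fin N) ℂ)}
    {K : MvPolynomial τ ℤ} (h : IsKu u S K) (e : τ ↪ τ') :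
    IsKu (fun i => (u i).mapDomain e) S (MvPolynomial.rename e K) := by
  have h1 : DP (fun i => (u i).mapDomain e) = MvPolynomial.rename e (DP u) := by
    simp [DP, map_prod, rename_monomial, Finsupp.mapDomain_add]
  rw [IsKu, h1, ← MvPowerSeries.rename_coe, ← MvPowerSeries.rename_coe, h, map_mul, HM, HM,
    ← hs_rename]
  simp only [Finsupp.mapDomain_add]

theorem homog_of_torus {σ τ : Type*} (w : σ → τ →₀ ℕ) (V : Set (σ → ℂ))
    (hV : ∀ t : τ → ℂ, ∀ x ∈ V, (fun s => ((w s).prod fun i k => t i ^ k) * x s) ∈ V) :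
    Homog w (vanishingIdeal ℂ V) := by
  classical
  intro P hP ν x hx
  let Q : MvPolynomial σ ℂ →ₐ[ℂ] MvPolynomial τ ℂ := aeval fun s => monomial (w s) (x s)
  have hQm : ∀ α : σ →₀ ℕ, Q (monomial α 1) =
      monomial (Finsupp.weight w α) (aeval x (monomial α (1 : ℂ))) := by
    intro α
    induction α using Finsupp.induction_linear with
    | zero => simp
    | add a b ha hb =>
      rw [← one_mul (1 : ℂ), ← monomial_mul, map_mul, ha, hb, monomial_mul, map_add,
        map_mul (aeval x)]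
    | single s k =>
      rw [← X_pow_eq_monomial, map_pow, map_pow, Finsupp.weight_single]
      simp [Q, monomial_pow]
  have h1 : ∀ P : MvPolynomial σ ℂ,
      coeff ν (Q P) = aeval x (weightedHomogeneousComponent w ν P) := by
    intro P
    induction P using MvPolynomial.induction_on' with
    | add P Q hP hQ => simp [hP, hQ]
    | monomial α c =>
      have h2 : monomial α c = c • monomial α (1 : ℂ) := by
        rw [smul_monomial, smul_eq_mul, mul_one]
      rw [h2, map_smul, map_smul, map_smul, hQm, coeff_smul, coeff_monomial,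
        weightedHomogeneousComponent_of_mem
          (isWeightedHomogeneous_monomial w α (1 : ℂ) rfl)]
      by_cases h : Finsupp.weight w α = ν
      · simp [h]
      · simp [h, Ne.symm h]
  have h2 : Q P = 0 := by
    apply MvPolynomial.funext
    intro t
    have h3 : (aeval t).comp Q = aeval fun s => ((w s).prod fun i k => t i ^ k) * x s := by
      ext s
      simp [Q, eval_monomial, mul_comm]
    have h4 := DFunLike.congr_fun h3 P
    rw [hP _ (hV t x hx)] at h4
    simpa [aeval_eq_eval] using h4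
  rw [← h1, h2, coeff_zero]

theorem homog_idealMX (z : Equiv.Perm (Fin N)) : Homog (wt N) (idealMX z) := by
  apply homog_of_torus
  rintro t _ ⟨A, hA, rfl⟩
  refine ⟨_, diag_mem_MX hA t, ?_⟩
  funext s
  simp [wt, Finsupp.prod_add_index', pow_add]

theorem idealMX_ne_top (z : Equiv.Perm (Fin N)) : idealMX z ≠ ⊤ := by
  rw [Ideal.ne_top_iff_one, mem_idealMX]
  intro h
  simpa using h 0 (zero_mem_MX z)

theorem krull_V : ringKrullDim (MvPolynomial (Pos N) ℂ) = (Fintype.card (Pos N) : ℕ) := by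
  rw [MvPolynomial.ringKrullDim_of_isNoetherianRing, ringKrullDim_eq_zero_of_field, zero_add,
    Nat.card_eq_fintype_card]

theorem exists_dim (z : Equiv.Perm (Fin N)) : ∃ d : ℕ, d ≤ Fintype.card (Pos N) ∧
    ringKrullDim (MvPolynomial (Pos N) ℂ ⧸ idealMX z) = d := by
  have := Ideal.Quotient.nontrivial_iff.mpr (idealMX_ne_top z)
  have h0 := ringKrullDim_nonneg_of_nontrivial (R := MvPolynomial (Pos N) ℂ ⧸ idealMX z)
  have h1 := ringKrullDim_quotient_le (idealMX z)
  rw [krull_V] at h1
  generalize ringKrullDim (MvPolynomial (Pos N) ℂ ⧸ idealMX z) = a at h0 h1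
  induction a using WithBot.recBotCoe with
  | bot => simp at h0
  | coe a =>
    induction a using ENat.recTopCoe with
    | top =>
      have h2 : (⊤ : ℕ∞) ≤ (Fintype.card (Pos N) : ℕ∞) := by exact_mod_cast h1
      exact absurd (top_le_iff.mp h2) (ENat.natCast_ne_top _)
    | coe a => exact ⟨a, by exact_mod_cast h1, rfl⟩

/-- The dimension of `MX z`. -/
noncomputable def dimX (z : Equiv.Perm (Fin N)) : ℕ := (exists_dim z).choose

theorem dimX_le (z : Equiv.Perm (Fin N)) : dimX z ≤ Fintype.card (Pos N) :=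
  (exists_dim z).choose_spec.1

theorem krull_eq_dimX (z : Equiv.Perm (Fin N)) :
    ringKrullDim (MvPolynomial (Pos N) ℂ ⧸ idealMX z) = dimX z := (exists_dim z).choose_spec.2

/-- The codimension of `MX z`. -/
noncomputable def cod (z : Equiv.Perm (Fin N)) : ℕ := Fintype.card (Pos N) - dimX z

theorem codim_iff (z : Equiv.Perm (Fin N)) (c : ℕ) :
    (c : WithBot ℕ∞) + ringKrullDim (MvPolynomial (Pos N) ℂ ⧸ idealMX z) =
      ringKrullDim (MvPolynomial (Pos N) ℂ) ↔ c = cod z := by
  rw [krull_eq_dimX, krull_V, ← Nat.cast_add, Nat.cast_inj, cod]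
  have := dimX_le z
  omega

theorem exists_K (z : Equiv.Perm (Fin N)) : ∃ K : MvPolynomial (Fin N) ℤ, IsKu (u0 N) (MX z) K ∧
    ∃ G : MvPolynomial (Fin N) (Polynomial ℤ),
      C ((-Polynomial.X) ^ cod z) * G = sub1 (Fin N) K := by
  obtain ⟨K, hK, hd⟩ := serre wt_ne_zero (idealMX z) (homog_idealMX z)
  refine ⟨K, ?_, ?_⟩
  · rw [IsKu, coe_DP_u0, ← hilb_idealMX, hilb_eq, hK]
  · obtain ⟨G, hG⟩ := hd (cod z) (by rw [← krull_V, (codim_iff z _).mpr rfl])
    refine ⟨C ((-1) ^ cod z) * G, ?_⟩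
    rw [hG, ← mul_assoc, ← map_mul, ← mul_pow]
    simp

/-- The `K`-polynomial of `MX z`. -/
noncomputable def Kz (z : Equiv.Perm (Fin N)) : MvPolynomial (Fin N) ℤ := (exists_K z).choose

theorem isKu_Kz (z : Equiv.Perm (Fin N)) : IsKu (u0 N) (MX z) (Kz z) := (exists_K z).choose_spec.1

/-- The orthogonal Grothendieck polynomial. -/
noncomputable def Gz (z : Equiv.Perm (Fin N)) : MvPolynomial (Fin N) (Polynomial ℤ) :=
  (exists_K z).choose_spec.2.choose

theorem Gz_spec (z : Equiv.Perm (Fin N)) :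
    C ((-Polynomial.X) ^ cod z) * Gz z = sub1 (Fin N) (Kz z) :=
  (exists_K z).choose_spec.2.choose_spec

theorem isOrthGroth_iff (z : Equiv.Perm (Fin N)) (G : MvPolynomial (Fin N) (Polynomial ℤ)) :
    IsOrthGroth z G ↔ G = Gz z := by
  constructor
  · rintro ⟨K, c, h1, h2, h3⟩
    rw [IsKClass, isK_iff] at h1
    rw [IsCodim, codim_iff] at h2
    rw [h1.unique (isKu_Kz z), h2] at h3
    have h4 := h3.trans (Gz_spec z).symm
    refine mul_left_cancel₀ ?_ h4
    rw [Ne, C_eq_zero]
    exact pow_ne_zero _ (neg_ne_zero.mpr Polynomial.X_ne_zero)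
  · rintro rfl
    exact ⟨Kz z, cod z, (isK_iff z _).mpr (isKu_Kz z), (codim_iff z _).mpr rfl, Gz_spec z⟩

end Pool.Agent.MP_ef387b_co

end

section

/-!
Inserting a fixed point: the `K`-polynomial specialises and the codimension does not increase.
-/

namespace Pool.Agent.MP_ef387b_co

open MvPolynomial

variable {N N' : ℕ}

open Classical in
/-- A partial inverse of `e`. -/
noncomputable def pinv (e : Fin N → Fin N') (b : Fin N') : Option (Fin N) :=
  if h : ∃ a, e a = b then some h.choose else none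

theorem pinv_apply {e : Fin N → Fin N'} (he : Function.Injective e) (a : Fin N) :
    pinv e (e a) = some a := by
  have h : ∃ a', e a' = e a := ⟨a, rfl⟩
  rw [pinv, dif_pos h, he h.choose_spec]

theorem pinv_of_ne {e : Fin N → Fin N'} {p : Fin N'} (h : ∀ a, e a ≠ p) : pinv e p = none := by
  rw [pinv, dif_neg]
  rintro ⟨a, ha⟩
  exact h a ha

/-- The bordered matrix with Schur complement `A` and border `y`. -/
noncomputable def extG {B : Type*} [CommRing B] (e : Fin N → Fin N') (A : Fin N → Fin N → B)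
    (y : Fin N → B) (a b : Fin N') : B :=
  match pinv e a, pinv e b with
  | none, none => 1
  | none, some j => y j
  | some i, none => y i
  | some i, some j => A i j + y i * y j

section

variable {z : Equiv.Perm (Fin N)} {z' : Equiv.Perm (Fin N')} {p : Fin N'} {e : Fin N → Fin N'}

theorem Ins.ext_pp (h : Ins z z' p e) {B : Type*} [CommRing B] (A : Fin N → Fin N → B)
    (y : Fin N → B) : extG e A y p p = 1 := by
  simp [extG, pinv_of_ne h.ne]

theorem Ins.ext_pe (h : Ins z z' p e) {B : Type*} [CommRing B] (A : Fin N → Fin N → B)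
    (y : Fin N → B) (j : Fin N) : extG e A y p (e j) = y j := by
  simp [extG, pinv_of_ne h.ne, pinv_apply h.mono.injective]

theorem Ins.ext_ep (h : Ins z z' p e) {B : Type*} [CommRing B] (A : Fin N → Fin N → B)
    (y : Fin N → B) (j : Fin N) : extG e A y (e j) p = y j := by
  simp [extG, pinv_of_ne h.ne, pinv_apply h.mono.injective]

theorem Ins.ext_ee (h : Ins z z' p e) {B : Type*} [CommRing B] (A : Fin N → Fin N → B)
    (y : Fin N → B) (i j : Fin N) : extG e A y (e i) (e j) = A i j + y i * y j := by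
  simp [extG, pinv_apply h.mono.injective]

theorem Ins.ext_mem0 (h : Ins z z' p e) {A : Matrix (Fin N) (Fin N) ℂ} (hA : A ∈ MX z) :
    Matrix.of (extG e A 0) ∈ MX z' := by
  have hs : (Matrix.of (extG e A 0)).IsSymm := by
    ext a b
    rcases h.cover a with rfl | ⟨a, rfl⟩ <;> rcases h.cover b with rfl | ⟨b, rfl⟩
    · rfl
    · simp [h.ext_pe, h.ext_ep]
    · simp [h.ext_pe, h.ext_ep]
    · simp [h.ext_ee, hA.1.apply a b]
  rw [h.mem_iff hs (h.ext_pp _ _) (fun a => h.ext_pe _ _ a)]
  convert hA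
  ext a b
  simp [h.ext_ee]

theorem Ins.ext_mem (h : Ins z z' p e) {A : Matrix (Fin N) (Fin N) ℂ} (hA : A ∈ MX z)
    (y : Fin N → ℂ) : Matrix.of (extG e A y) ∈ MX z' := by
  have := cong_mem_MX' (h.ext_mem0 hA) p h.fix (fun b => (pinv e b).elim 0 y)
  convert this
  ext a b
  rcases h.cover a with rfl | ⟨a, rfl⟩ <;> rcases h.cover b with rfl | ⟨b, rfl⟩ <;>
    simp [cong, h.ext_pp, h.ext_pe, h.ext_ep, h.ext_ee, pinv_of_ne h.ne,
      pinv_apply h.mono.injective]

theorem Ins.prod_univ (h : Ins z z' p e) {M : Type*} [CommMonoid M] (g : Fin N' → M) :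
    ∏ a, g a = g p * ∏ a, g (e a) := by
  have : (Finset.univ : Finset (Fin N')) =
      insert p (Finset.univ.map ⟨e, h.mono.injective⟩) := by
    ext b
    simpa using h.cover b
  rw [this, Finset.prod_insert (by simpa using h.ne), Finset.prod_map]
  rfl

theorem Ins.prod_erase (h : Ins z z' p e) {M : Type*} [CommMonoid M] (g : Fin N' → M) :
    ∏ a ∈ Finset.univ.erase p, g a = ∏ a, g (e a) := by
  have : (Finset.univ : Finset (Fin N')).erase p = Finset.univ.map ⟨e, h.mono.injective⟩ := by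
    ext b
    simp only [Finset.mem_erase, Finset.mem_univ, and_true, Finset.mem_map, true_and]
    constructor
    · exact fun hb => (h.cover b).resolve_left hb
    · rintro ⟨a, rfl⟩
      exact h.ne a
  rw [this, Finset.prod_map]
  rfl

theorem prod_Ici_eq {M : Type*} [CommMonoid M] (F : Fin N → M) (a : Fin N) :
    ∏ b ∈ Finset.Ici a, F b = ∏ b, if a ≤ b then F b else 1 := by
  rw [← Finset.prod_filter]
  congr 1
  ext b
  simp

theorem Ins.prod_tri (h : Ins z z' p e) {M : Type*} [CommMonoid M] (F : Fin N' → Fin N' → M)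
    (hF : ∀ a b, F a b = F b a) :
    ∏ a, ∏ b ∈ Finset.Ici a, F a b =
      F p p * ((∏ j, F p (e j)) * ∏ a, ∏ b ∈ Finset.Ici a, F (e a) (e b)) := by
  simp only [prod_Ici_eq]
  rw [h.prod_univ]
  simp only [h.prod_univ (fun b => if _ ≤ b then F _ b else 1), le_refl, if_true,
    h.mono.le_iff_le, Finset.prod_mul_distrib]
  rw [mul_assoc, ← mul_assoc (∏ _, _), ← Finset.prod_mul_distrib]
  congr 3
  funext j
  rcases lt_or_gt_of_ne (h.ne j) with hj | hj
  · simp [hj.le, hj.not_ge, hF (e j) p]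
  · simp [hj.le, hj.not_ge]

theorem prod_one_sub_ne_zero {τ ι : Type*} (S : Finset ι) (v : ι → τ →₀ ℕ) (hv : ∀ i ∈ S, v i ≠ 0) :
    ∏ i ∈ S, (1 - MvPowerSeries.monomial (v i) (1 : ℤ)) ≠ 0 := by
  classical
  rw [Finset.prod_ne_zero_iff]
  intro i hi h0
  have := congrArg (MvPowerSeries.coeff 0) h0
  rw [map_sub, MvPowerSeries.coeff_monomial, if_neg (hv i hi).symm] at this
  simp at this

theorem Ins.sp_Kz (h : Ins z z' p e) : sp p (Kz z') = rename e (Kz z) := by
  let u := u0 N'
  have hup : u p = Finsupp.single p 1 := rfl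
  have hue : ∀ j, (u (e j)).erase p = u (e j) := fun j => Finsupp.erase_single_ne (h.ne j).symm
  let D : MvPolynomial (Fin N') ℤ := (∏ j, (1 - monomial (u p + u (e j)) 1)) * DP (fun a => u (e a))
  have hD : DP u = (1 - monomial (Finsupp.single p 2) 1) * D := by
    rw [DP, h.prod_tri (fun a b => (1 - monomial (u a + u b) 1 : MvPolynomial (Fin N') ℤ))
      (fun a b => by rw [add_comm]), hup, ← Finsupp.single_add]
    rfl
  have hspD : sp p D = (∏ j, (1 - monomial (u (e j)) 1)) * DP (fun a => u (e a)) := by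
    simp only [D, DP, map_mul, map_prod, map_sub, map_one, sp_monomial, Finsupp.erase_add, hue, hup,
      Finsupp.erase_single, zero_add]
  have hune : ∀ j, u j ≠ 0 := fun j => by simp [u, u0]
  have hpiv := pivot u (MX z') p p (Finset.univ.erase p) hup
    (fun i hi => Finsupp.single_eq_of_ne' hi) (by simp) (fun j _ => hune j)
    (fun c _ A hA => scale_mem_MX hA p c) (fun y _ A hA => cong_mem_MX' hA p h.fix y) (by
      intro a b hab h0
      exfalso
      rw [add_eq_zero] at h0
      by_cases ha : a = p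
      · by_cases hb : b = p
        · exact hab (by rw [ha, hb])
        · rw [Function.update_of_ne hb] at h0
          exact hune b h0.2
      · rw [Function.update_of_ne ha] at h0
        exact hune a h0.1) (K := Kz z') (D := D) (by
      rw [isKu_Kz z', hD, coe_mul, coe_one_sub_monomial, mul_assoc])
  have hHM : HM (Function.update u p 0)
      {A | A ∈ MX z' ∧ A p p = 1 ∧ ∀ j ∈ Finset.univ.erase p, A p j = 0} =
      HM (fun a => u (e a)) (MX z) := by
    set S' : Set (Matrix (Fin N') (Fin N') ℂ) :=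
      {A | A ∈ MX z' ∧ A p p = 1 ∧ ∀ j ∈ Finset.univ.erase p, A p j = 0} with hS'
    have hrow : ∀ A : S', ∀ a, A.1 p (e a) = 0 := fun A a => A.2.2.2 _ (by simpa using h.ne a)
    let φ : S' → MX z := fun A =>
      ⟨A.1.submatrix e e, (h.mem_iff A.2.1.1 A.2.2.1 (hrow A)).mp A.2.1⟩
    have hφ : Function.Surjective φ := by
      rintro ⟨A, hA⟩
      refine ⟨⟨Matrix.of (extG e A 0), h.ext_mem0 hA, h.ext_pp _ _, ?_⟩, ?_⟩
      · intro j hj
        obtain ⟨j, rfl⟩ := (h.cover j).resolve_left (Finset.ne_of_mem_erase hj)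
        exact h.ext_pe _ _ j
      · apply Subtype.ext
        ext a b
        simp [φ, h.ext_ee]
    rw [HM, HM, ← hs_map_of_injective (pull φ) (pull_injective hφ)]
    apply hs_eq_of_gen
    · rintro ⟨a, b⟩
      rcases h.cover a with rfl | ⟨a, rfl⟩ <;> rcases h.cover b with rfl | ⟨b, rfl⟩
      · exact dead_mem _ _ (Or.inr ⟨by simp, funext fun A => A.2.2.1⟩)
      · exact dead_mem _ _ (Or.inl (funext fun A => hrow A b))
      · exact dead_mem _ _ (Or.inl (funext fun A => (A.2.1.1.apply _ _).trans (hrow A a)))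
      · exact gen_mem_gp' _ _ (a, b) rfl (by simp [Function.update_of_ne (h.ne _)])
    · rintro ⟨a, b⟩
      exact gen_mem_gp' _ _ (e a, e b) rfl (by simp [Function.update_of_ne (h.ne _)])
  rw [hHM, hspD, coe_mul, coe_prod', h.prod_erase] at hpiv
  simp only [coe_one_sub_monomial] at hpiv
  have h1 : IsKu (fun a => u (e a)) (MX z) (sp p (Kz z')) := by
    apply mul_right_cancel₀ (prod_one_sub_ne_zero Finset.univ (fun j => u (e j)) fun j _ => hune _)
    rw [hpiv]
    ring
  have h2 := (isKu_Kz z).rename ⟨e, h.mono.injective⟩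
  simp only [u0, Finsupp.mapDomain_single] at h2
  exact h1.unique h2

theorem mem_of_mul_X_sub_one {σ τ : Type*} {w : σ → τ →₀ ℕ} {I : Ideal (MvPolynomial σ ℂ)}
    (hI : Homog w I) (s : σ) (hs : w s ≠ 0) {g : MvPolynomial σ ℂ} (hg : g * (X s - 1) ∈ I) :
    g ∈ I := by
  have key : ∀ ν, weightedHomogeneousComponent w ν g ∈ I := by
    intro ν
    induction ν using WellFoundedLT.induction with
    | ind ν ih =>
    have h1 := hI _ hg ν
    rw [mul_sub, mul_one, mul_comm, map_sub] at h1
    have h2 : weightedHomogeneousComponent w ν (X s * g) ∈ I := by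
      by_cases hv : w s ≤ ν
      · obtain ⟨μ, rfl⟩ := exists_add_of_le hv
        rw [add_comm (w s) μ, comp_X_mul]
        exact I.mul_mem_left _ (ih μ (lt_add_of_pos_left μ (pos_iff_ne_zero.mpr hs)))
      · rw [comp_X_mul_eq_zero w s hv]
        exact I.zero_mem
    simpa using I.sub_mem h2 h1
  rw [← sum_weightedHomogeneousComponent w g,
    finsum_eq_sum _ (weightedHomogeneousComponent_finsupp g)]
  exact I.sum_mem fun ν _ => key ν

/-- The coordinate `A a b` for an arbitrary pair of indices. -/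
noncomputable def xs (a b : Fin N) : MvPolynomial (Pos N) ℂ :=
  if h : a ≤ b then X ⟨(a, b), h⟩ else X ⟨(b, a), (not_le.mp h).le⟩

theorem algHom_xs {B : Type*} [CommRing B] [Algebra ℂ B] (F : Fin N → Fin N → B)
    (hF : ∀ a b, F a b = F b a) (a b : Fin N) :
    aeval (fun s : Pos N => F s.1.1 s.1.2) (xs a b) = F a b := by
  unfold xs
  split_ifs
  · simp
  · simp [hF a b]

theorem xs_comm (a b : Fin N) : xs a b = xs b a := by
  unfold xs
  rcases lt_trichotomy a b with h | rfl | h
  · rw [dif_pos h.le, dif_neg h.not_ge]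
  · rfl
  · rw [dif_neg h.not_ge, dif_pos h.le]

theorem xs_eq (s : Pos N) : xs s.1.1 s.1.2 = X s := by
  rw [xs, dif_pos s.2]

theorem Ins.card_eq (h : Ins z z' p e) : N' = N + 1 := by
  have := h.prod_univ (fun _ => Multiplicative.ofAdd (1 : ℕ))
  simp only [Finset.prod_const, Finset.card_univ, Fintype.card_fin] at this
  have h2 := congrArg Multiplicative.toAdd this
  simp at h2
  omega

theorem card_Pos (N : ℕ) : Fintype.card (Pos N) = (N + 1).choose 2 := by
  rw [← Fintype.card_congr Sym2.sortEquiv, Sym2.card, Fintype.card_fin]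

theorem Ins.dim_aux (h : Ins z z' p e) {Q : Type} [CommRing Q] [Algebra ℂ Q]
    (π : MvPolynomial (Pos N) ℂ →ₐ[ℂ] Q) (hπ : Function.Surjective π) (ev : Q →ₐ[ℂ] (MX z → ℂ))
    (hev : Function.Injective ev)
    (hc : ∀ f A, ev (π f) A = aeval (fun p : Pos N => A.1 p.1.1 p.1.2) f) :
    ringKrullDim (MvPolynomial (Fin N) Q) + 1 ≤
      ringKrullDim (MvPolynomial (Pos N') ℂ ⧸ idealMX z') := by
  let A : Fin N → Fin N → MvPolynomial (Fin N) Q := fun i j => C (π (xs i j))
  let Ψ : Fin N' → Fin N' → MvPolynomial (Fin N) Q := extG e A X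
  have hΨ : ∀ a b, Ψ a b = Ψ b a := by
    intro a b
    rcases h.cover a with rfl | ⟨a, rfl⟩ <;> rcases h.cover b with rfl | ⟨b, rfl⟩
    · rfl
    · simp [Ψ, h.ext_pe, h.ext_ep]
    · simp [Ψ, h.ext_pe, h.ext_ep]
    · simp [Ψ, h.ext_ee, A, xs_comm a b, mul_comm]
  let ψ : MvPolynomial (Pos N') ℂ →ₐ[ℂ] MvPolynomial (Fin N) Q := aeval fun s => Ψ s.1.1 s.1.2
  have hψ : ∀ a b, ψ (xs a b) = Ψ a b := algHom_xs Ψ hΨ
  let θ : MvPolynomial (Fin N) Q →ₐ[ℂ] (MX z × (Fin N → ℂ) → ℂ) :=
    (evp (MX z) (Fin N)).comp (mapAlgHom ev)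
  have hθ : Function.Injective θ :=
    (evp_injective _ _).comp (map_injective ev.toRingHom hev)
  have hθA : ∀ i j x, θ (A i j) x = x.1.1 i j := by
    intro i j x
    simp only [θ, A, AlgHom.comp_apply, mapAlgHom_apply, map_C, evp_C]
    exact (hc _ _).trans (algHom_xs (fun a b => x.1.1 a b) (fun a b => x.1.2.1.apply b a) i j)
  have hθX : ∀ j x, θ (X j) x = x.2 j := by
    intro j x
    simp [θ, evp_X]
  have hθΨ : ∀ a b x, θ (Ψ a b) x = extG e x.1.1 x.2 a b := by
    intro a b x
    rcases h.cover a with rfl | ⟨a, rfl⟩ <;> rcases h.cover b with rfl | ⟨b, rfl⟩ <;>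
      simp [Ψ, h.ext_pp, h.ext_pe, h.ext_ep, h.ext_ee, hθA, hθX]
  have hker : ∀ f ∈ idealMX z', ψ f = 0 := by
    intro f hf
    apply hθ
    funext x
    have h1 : θ.comp ψ = aeval fun (s : Pos N') x => extG e x.1.1 x.2 s.1.1 s.1.2 := by
      ext s x
      simp [ψ, hθΨ]
    have h2 := DFunLike.congr_fun h1 f
    rw [AlgHom.comp_apply] at h2
    rw [h2, aeval_pi_apply, map_zero]
    exact mem_idealMX.mp hf _ (h.ext_mem x.1.2 x.2)
  have hsurj : Function.Surjective ψ := by
    have hX : ∀ j, (X j : MvPolynomial (Fin N) Q) ∈ ψ.range :=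
      fun j => ⟨xs p (e j), (hψ _ _).trans (h.ext_pe _ _ j)⟩
    have hA : ∀ i j, A i j ∈ ψ.range := by
      intro i j
      have h1 : A i j = ψ (xs (e i) (e j)) - X i * X j := by
        rw [hψ]; simp [Ψ, h.ext_ee]
      rw [h1]
      exact sub_mem ⟨_, rfl⟩ (mul_mem (hX i) (hX j))
    have hC : ∀ f : MvPolynomial (Pos N) ℂ, (C (π f) : MvPolynomial (Fin N) Q) ∈ ψ.range := by
      intro f
      induction f using MvPolynomial.induction_on with
      | C a =>
        rw [algHom_C]
        exact ψ.range.algebraMap_mem a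
      | add P Q hP hQ => rw [map_add, map_add]; exact add_mem hP hQ
      | mul_X P s hP =>
        rw [map_mul, map_mul]
        exact mul_mem hP (xs_eq s ▸ hA s.1.1 s.1.2)
    intro g
    change g ∈ ψ.range
    induction g using MvPolynomial.induction_on with
    | C a =>
      obtain ⟨f, rfl⟩ := hπ a
      exact hC f
    | add P Q hP hQ => exact add_mem hP hQ
    | mul_X P s hP => exact mul_mem hP (hX s)
  let ψ' := Ideal.Quotient.lift (idealMX z') ψ.toRingHom hker
  have hsurj' : Function.Surjective ψ' := Ideal.Quotient.lift_surjective_of_surjective _ _ hsurj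
  have hnz : Ideal.Quotient.mk (idealMX z') (X ⟨(p, p), le_rfl⟩ - 1) ∈
      nonZeroDivisors (MvPolynomial (Pos N') ℂ ⧸ idealMX z') := by
    rw [mem_nonZeroDivisors_iff_right]
    intro g hg
    obtain ⟨f, rfl⟩ := Ideal.Quotient.mk_surjective g
    rw [← map_mul, Ideal.Quotient.eq_zero_iff_mem] at hg
    exact Ideal.Quotient.eq_zero_iff_mem.mpr
      (mem_of_mul_X_sub_one (homog_idealMX z') _ (wt_ne_zero _) hg)
  exact ringKrullDim_succ_le_of_surjective ψ' hsurj' hnz (by
    simp [ψ', ψ, Ψ, h.ext_pp])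

theorem Ins.dim_le (h : Ins z z' p e) : dimX z + N + 1 ≤ dimX z' := by
  have h1 := h.dim_aux (Ideal.Quotient.mkₐ ℂ (idealMX z)) Ideal.Quotient.mk_surjective (evI z)
    (evI_injective z) (evI_mk z)
  have h2 := ringKrullDim_add_natCard_le_ringKrullDim_mvPolynomial
    (R := MvPolynomial (Pos N) ℂ ⧸ idealMX z) (Fin N)
  rw [krull_eq_dimX, Nat.card_eq_fintype_card, Fintype.card_fin] at h2
  rw [krull_eq_dimX] at h1
  have h3 : (dimX z : WithBot ℕ∞) + N + 1 ≤ dimX z' := le_trans (by gcongr) h1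
  exact_mod_cast h3

theorem Ins.cod_le (h : Ins z z' p e) : cod z' ≤ cod z := by
  have h1 := h.dim_le
  have h2 := h.card_eq
  subst h2
  rw [cod, cod, card_Pos, card_Pos, Nat.choose_succ_succ' (N + 1) 1, Nat.choose_one_right]
  change N + 1 + (N + 1).choose 2 - _ ≤ _
  omega

end

end Pool.Agent.MP_ef387b_co

end

section

/-!
Setting the torus variables `r, …, t - 1` equal to `1` one after the other.
-/

namespace Pool.Agent.MP_ef387b_co

open MvPolynomial

variable {N : ℕ}

/-- Index weights after the pivots `r, …, t - 1`. -/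
noncomputable def uC (N r t : ℕ) (i : Fin N) : Fin N →₀ ℕ :=
  if r ≤ i.1 ∧ i.1 < t then 0 else Finsupp.single i 1

/-- The slice of `MX z` after the pivots `r, …, t - 1`. -/
def SC (z : Equiv.Perm (Fin N)) (r t : ℕ) : Set (Matrix (Fin N) (Fin N) ℂ) :=
  {A | A ∈ MX z ∧ ∀ a b : Fin N, r ≤ a.1 → a.1 < t → r ≤ b.1 → A a b = if a = b then 1 else 0}

/-- The denominator after the pivots `r, …, t - 1`. -/
noncomputable def DC (N r t : ℕ) : MvPolynomial (Fin N) ℤ :=
  ∏ a ∈ Finset.univ.filter (fun a : Fin N => ¬ (r ≤ a.1 ∧ a.1 < t)), ∏ b ∈ Finset.Ici a,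
    (1 - monomial (uC N r t a + uC N r t b) 1)

/-- Setting the variables `r, …, t - 1` equal to `1`. -/
noncomputable def spC (N r t : ℕ) : MvPolynomial (Fin N) ℤ →ₐ[ℤ] MvPolynomial (Fin N) ℤ :=
  aeval fun i => if r ≤ i.1 ∧ i.1 < t then 1 else X i

theorem chain (z : Equiv.Perm (Fin N)) (r : ℕ) : ∀ t, r ≤ t → t ≤ N →
    ((spC N r t (Kz z) : MvPolynomial (Fin N) ℤ) : MvPowerSeries (Fin N) ℤ) =
      HM (uC N r t) (SC z r t) * (DC N r t : MvPolynomial (Fin N) ℤ) := by
  intro t hrt
  induction t, hrt using Nat.le_induction with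
  | base =>
    intro _
    have hn : ∀ i : Fin N, ¬ (r ≤ i.1 ∧ i.1 < r) := fun i h => by omega
    have h1 : uC N r r = u0 N := funext fun i => if_neg (hn i)
    have h2 : SC z r r = MX z := by
      ext A
      exact ⟨fun h => h.1, fun h => ⟨h, fun a _ h1 h2 => absurd ⟨h1, h2⟩ (hn a)⟩⟩
    have h3 : DC N r r = DP (u0 N) := by
      rw [DC, DP, h1, Finset.filter_true_of_mem fun i _ => hn i]
    have h4 : spC N r r = AlgHom.id ℤ _ := by
      ext i
      simp [spC, hn i]
    rw [h1, h2, h3, h4]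
    exact isKu_Kz z
  | succ t hrt ih =>
    intro htN
    have ih := ih (by omega)
    let p : Fin N := ⟨t, by omega⟩
    let u := uC N r t
    have hup : u p = Finsupp.single p 1 := if_neg (by simp [p])
    have hu' : Function.update u p 0 = uC N r (t + 1) := by
      funext i
      by_cases hi : i = p
      · subst hi
        rw [Function.update_self, uC, if_pos (by simp [p, hrt])]
      · have : i.1 ≠ t := fun h => hi (Fin.ext h)
        rw [Function.update_of_ne hi]
        exact if_congr (by omega) rfl rfl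
    have hu : ∀ i, i ≠ p → u i p = 0 := by
      intro i hi
      simp only [u, uC]
      split_ifs
      · rfl
      · exact Finsupp.single_eq_of_ne' hi
    have hue : ∀ i, (u i).erase p = uC N r (t + 1) i := by
      intro i
      rw [← hu']
      by_cases hi : i = p
      · subst hi; simp [hup]
      · rw [Function.update_of_ne hi, Finsupp.erase_of_notMem_support (by simpa using hu i hi)]
    have hJ : ∀ j ∈ Finset.Ioi p, u j = Finsupp.single j 1 := by
      intro j hj
      have : t < j.1 := Fin.lt_def.mp (Finset.mem_Ioi.mp hj)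
      exact if_neg (by omega)
    have hJ' : ∀ j ∈ Finset.Ioi p, uC N r (t + 1) j = u j := by
      intro j hj
      rw [← hu', Function.update_of_ne (Finset.mem_Ioi.mp hj).ne']
    let D : MvPolynomial (Fin N) ℤ := (∏ j ∈ Finset.Ioi p, (1 - monomial (u p + u j) 1)) *
      ∏ a ∈ Finset.univ.filter (fun a : Fin N => ¬ (r ≤ a.1 ∧ a.1 < t + 1)), ∏ b ∈ Finset.Ici a,
        (1 - monomial (u a + u b) 1)
    have hD : DC N r t = (1 - monomial (Finsupp.single p 2) 1) * D := by
      have h1 : Finset.univ.filter (fun a : Fin N => ¬ (r ≤ a.1 ∧ a.1 < t)) =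
          insert p (Finset.univ.filter (fun a : Fin N => ¬ (r ≤ a.1 ∧ a.1 < t + 1))) := by
        ext a
        simp only [Finset.mem_filter, Finset.mem_univ, true_and, Finset.mem_insert, Fin.ext_iff, p]
        omega
      rw [DC, h1, Finset.prod_insert (by simp [p, hrt]), ← Finset.Ioi_insert,
        Finset.prod_insert (by simp), mul_assoc]
      change (1 - monomial (u p + u p) 1) * _ = _
      rw [hup, ← Finsupp.single_add]
    have hspD : sp p D = (∏ j ∈ Finset.Ioi p, (1 - monomial (u j) 1)) * DC N r (t + 1) := by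
      simp only [D, DC, map_mul, map_prod, map_sub, map_one, sp_monomial, Finsupp.erase_add, hue]
      congr 1
      refine Finset.prod_congr rfl fun j hj => ?_
      rw [hJ' j hj, ← hu', Function.update_self, zero_add]
    have hzero : ∀ a, uC N r (t + 1) a = 0 → r ≤ a.1 ∧ a.1 < t + 1 := by
      intro a ha
      by_contra h
      rw [uC, if_neg h] at ha
      simp at ha
    have hpiv := pivot u (SC z r t) p p (Finset.Ioi p) hup hu (by simp)
      (fun j hj => by rw [hJ j hj]; simp) (by
        intro c _ A hA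
        refine ⟨scale_mem_MX hA.1 p c, fun a b h1 h2 h3 => ?_⟩
        have hap : a ≠ p := fun h => by rw [h] at h2; simp [p] at h2
        simp only [scale, Matrix.of_apply, if_neg hap, hA.2 a b h1 h2 h3]
        by_cases hb : b = p
        · simp [hb, hap]
        · simp [hb]) (by
        intro y hy A hA
        refine ⟨cong_mem_MX hA.1 p y fun a ha => ?_, fun a b h1 h2 h3 => ?_⟩
        · by_contra h
          exact ha (hy a (by simpa using (not_le.mp h).le))
        · have hap : a ≠ p := fun h => by rw [h] at h2; simp [p] at h2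
          have hya : y a = 0 := hy a (by
            rw [Finset.mem_Ioi, not_lt]; exact Fin.le_def.mpr (by simp only [p]; omega))
          simp [cong, hya, hA.2 a b h1 h2 h3, hA.2 a p h1 h2 hrt, hap]) (by
        intro a b hab h0
        rw [hu', add_eq_zero] at h0
        have ha := hzero a h0.1
        have hb := hzero b h0.2
        by_cases hab' : a = b
        · subst hab'
          have hat : a.1 < t := by
            by_contra h
            exact hab (by rw [show a = p from Fin.ext (by simp only [p]; omega)])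
          right
          refine ⟨?_, fun A hA => by simpa using hA.2 a a ha.1 hat ha.1⟩
          have : u a = 0 := if_pos ⟨ha.1, hat⟩
          rw [this, add_zero]
        · left
          intro A hA
          by_cases hat : a.1 < t
          · simpa [hab'] using hA.2 a b ha.1 hat hb.1
          · have hbt : b.1 < t := by
              by_contra h
              exact hab' (Fin.ext (by omega))
            rw [← hA.1.1.apply a b]
            simpa [Ne.symm hab'] using hA.2 b a hb.1 hbt ha.1)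
      (K := spC N r t (Kz z)) (D := D) (by
        rw [ih, hD, coe_mul, coe_one_sub_monomial, mul_assoc])
    have hS : {A | A ∈ SC z r t ∧ A p p = 1 ∧ ∀ j ∈ Finset.Ioi p, A p j = 0} = SC z r (t + 1) := by
      ext A
      constructor
      · rintro ⟨hA, h1, h2⟩
        refine ⟨hA.1, fun a b ha1 ha2 hb => ?_⟩
        by_cases hat : a.1 < t
        · exact hA.2 a b ha1 hat hb
        · have : a = p := Fin.ext (by simp only [p]; omega)
          subst this
          rcases lt_trichotomy p b with h | h | h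
          · rw [h2 b (Finset.mem_Ioi.mpr h), if_neg h.ne]
          · rw [← h, h1, if_pos rfl]
          · rw [← hA.1.1.apply p b, hA.2 b p hb h hrt, if_neg h.ne, if_neg h.ne']
      · intro hA
        refine ⟨⟨hA.1, fun a b h1 h2 h3 => hA.2 a b h1 (by omega) h3⟩, ?_, fun j hj => ?_⟩
        · simpa using hA.2 p p hrt (by simp [p]) hrt
        · have hj' : p < j := Finset.mem_Ioi.mp hj
          rw [hA.2 p j hrt (by simp [p]) (hrt.trans (Fin.le_def.mp hj'.le)), if_neg hj'.ne]
    have hsp : sp p (spC N r t (Kz z)) = spC N r (t + 1) (Kz z) := by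
      have : (sp p).comp (spC N r t) = spC N r (t + 1) := by
        apply MvPolynomial.algHom_ext
        intro i
        by_cases hi : i = p
        · subst hi
          simp [spC, sp, p, hrt]
        · have h1 : i.1 ≠ t := fun h => hi (Fin.ext h)
          by_cases h2 : r ≤ i.1 ∧ i.1 < t
          · have h3 : r ≤ i.1 ∧ i.1 < t + 1 := by omega
            simp only [spC, AlgHom.comp_apply, aeval_X, if_pos h2, if_pos h3, map_one]
          · have h3 : ¬ (r ≤ i.1 ∧ i.1 < t + 1) := by omega
            simp only [spC, sp, AlgHom.comp_apply, aeval_X, if_neg h2, if_neg h3, if_neg hi]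
      exact DFunLike.congr_fun this _
    rw [hS, hu', hsp, hspD, coe_mul, coe_prod'] at hpiv
    simp only [coe_one_sub_monomial] at hpiv
    apply mul_right_cancel₀ (prod_one_sub_ne_zero (Finset.Ioi p) u fun j hj => by
      rw [hJ j hj]; simp)
    rw [hpiv]
    ring

end Pool.Agent.MP_ef387b_co

end
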